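import Mathlib

set_option autoImplicit false
open Filter Topology MeasureTheory
open scoped ENNReal

namespace Pool.Agent.H785R2.BergmanShift

/-- the Hilbert space -/
abbrev H : Type := Lp ℂ 2 (volume : Measure ℝ)

lemma norm_sq (f : H) : ‖f‖ ^ 2 = ∫ x, ‖f x‖ ^ 2 := by
  have h1 : (‖f‖ ^ 2 : ℝ) = RCLike.re (inner ℂ f f) := by
    rw [inner_self_eq_norm_sq]
  rw [h1, L2.inner_def]
  have h2 : ∀ x, inner ℂ (f x) (f x) = ((‖f x‖ ^ 2 : ℝ) : ℂ) := by
    intro x
    rw [inner_self_eq_norm_sq_to_K]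
    push_cast
    rfl
  simp_rw [h2]
  rw [integral_complex_ofReal]
  simp

lemma integrable_sq (f : H) : Integrable fun x => ‖f x‖ ^ 2 := by
  have := (Lp.memLp f)
  exact (memLp_two_iff_integrable_sq_norm this.1).mp this

/-- translation -/
noncomputable def S (t : ℝ) : H →L[ℂ] H :=
  (Lp.compMeasurePreservingₗᵢ ℂ (fun x : ℝ => x - t)
    (measurePreserving_sub_right volume t)).toContinuousLinearMap

lemma coeFn_S (t : ℝ) (g : H) : S t g =ᵐ[volume] fun x => g (x - t) :=
  Lp.coeFn_compMeasurePreserving g (measurePreserving_sub_right volume t)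

lemma norm_S (t : ℝ) (g : H) : ‖S t g‖ = ‖g‖ :=
  Lp.norm_compMeasurePreserving g (measurePreserving_sub_right volume t)

lemma memLp_mul {m : ℝ → ℝ} (hm : Measurable m) (hb : ∀ x, |m x| ≤ 1) (f : H) :
    MemLp (fun x => (m x : ℂ) * f x) 2 volume := by
  refine MemLp.of_le (Lp.memLp f) ?_ ?_
  · exact (Complex.measurable_ofReal.comp hm).aestronglyMeasurable.mul (Lp.aestronglyMeasurable f)
  · refine Eventually.of_forall fun x => ?_
    rw [norm_mul, Complex.norm_real, Real.norm_eq_abs]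
    exact mul_le_of_le_one_left (norm_nonneg _) (hb x)

/-- multiplication operator -/
noncomputable def mulOp (m : ℝ → ℝ) (hm : Measurable m) (hb : ∀ x, |m x| ≤ 1) : H →L[ℂ] H :=
  LinearMap.mkContinuous
    { toFun := fun f => (memLp_mul hm hb f).toLp _
      map_add' := fun f g => by
        rw [← MemLp.toLp_add]
        apply MemLp.toLp_congr
        filter_upwards [Lp.coeFn_add f g] with x hx
        rw [hx]; simp [mul_add]
      map_smul' := fun c f => by
        rw [RingHom.id_apply, ← MemLp.toLp_const_smul]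
        apply MemLp.toLp_congr
        filter_upwards [Lp.coeFn_smul c f] with x hx
        rw [hx]; simp [mul_left_comm] } 1 (fun f => by
      refine Lp.norm_le_mul_norm_of_ae_le_mul ?_
      filter_upwards [(memLp_mul hm hb f).coeFn_toLp] with x hx
      change ‖((memLp_mul hm hb f).toLp _) x‖ ≤ _
      rw [hx, norm_mul, Complex.norm_real, Real.norm_eq_abs]
      exact mul_le_mul_of_nonneg_right (hb x) (norm_nonneg _))

lemma coeFn_mulOp (m : ℝ → ℝ) (hm : Measurable m) (hb : ∀ x, |m x| ≤ 1) (f : H) :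
    mulOp m hm hb f =ᵐ[volume] fun x => (m x : ℂ) * f x := (memLp_mul hm hb f).coeFn_toLp

/-- indicator of the negative half line -/
noncomputable def pz (x : ℝ) : ℝ := if x ≤ 0 then 1 else 0

/-- the weight quotient -/
noncomputable def mt (t x : ℝ) : ℝ := if 0 ≤ t ∧ t < x then Real.sqrt ((x - t) / x) else 0

lemma pz_meas : Measurable pz := Measurable.ite measurableSet_Iic measurable_const measurable_const

lemma pz_le (x : ℝ) : |pz x| ≤ 1 := by unfold pz; split_ifs <;> simp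

lemma mt_meas (t : ℝ) : Measurable (mt t) := by
  unfold mt
  refine Measurable.ite ?_ ?_ measurable_const
  · exact (MeasurableSet.const _).inter measurableSet_Ioi
  · exact (((measurable_id.sub_const t).div measurable_id)).sqrt

lemma mt_nonneg (t x : ℝ) : 0 ≤ mt t x := by
  unfold mt; split_ifs
  · positivity
  · exact le_rfl

lemma mt_sq {t x : ℝ} (ht : 0 ≤ t) (hx : t < x) : mt t x ^ 2 = (x - t) / x := by
  unfold mt
  rw [if_pos ⟨ht, hx⟩, Real.sq_sqrt]
  exact div_nonneg (by linarith) (by linarith)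

lemma mt_le (t x : ℝ) : |mt t x| ≤ 1 := by
  rw [abs_of_nonneg (mt_nonneg t x)]
  unfold mt; split_ifs with h
  · rw [Real.sqrt_le_one]
    rw [div_le_one (by linarith [h.1, h.2])]
    linarith [h.1]
  · exact zero_le_one

/-- the semigroup -/
noncomputable def T (t : ℝ) : H →L[ℂ] H :=
  mulOp pz pz_meas pz_le + (mulOp (mt t) (mt_meas t) (mt_le t)).comp (S t)

lemma coeFn_T (t : ℝ) (g : H) :
    T t g =ᵐ[volume] fun x => (pz x : ℂ) * g x + (mt t x : ℂ) * g (x - t) := by
  have h1 : T t g = mulOp pz pz_meas pz_le g + mulOp (mt t) (mt_meas t) (mt_le t) (S t g) := rfl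
  rw [h1]
  filter_upwards [Lp.coeFn_add (mulOp pz pz_meas pz_le g)
    (mulOp (mt t) (mt_meas t) (mt_le t) (S t g)), coeFn_mulOp pz pz_meas pz_le g,
    coeFn_mulOp (mt t) (mt_meas t) (mt_le t) (S t g), coeFn_S t g] with x h2 h3 h4 h5
  rw [h2, Pi.add_apply, h3, h4, h5]

lemma T_zero : T 0 = ContinuousLinearMap.id ℂ H := by
  ext1 g
  apply Lp.ext
  filter_upwards [coeFn_T 0 g] with x hx
  rw [hx, sub_zero, ContinuousLinearMap.id_apply]
  by_cases h : x ≤ 0
  · have h1 : pz x = 1 := if_pos h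
    have h2 : mt 0 x = 0 := by unfold mt; rw [if_neg]; intro h3; linarith [h3.2]
    rw [h1, h2]; simp
  · push Not at h
    have h1 : pz x = 0 := if_neg (not_le.mpr h)
    have h2 : mt 0 x = 1 := by
      unfold mt; rw [if_pos ⟨le_rfl, h⟩, sub_zero, div_self h.ne', Real.sqrt_one]
    rw [h1, h2]; simp

lemma T_add (s t : ℝ) (hs : 0 ≤ s) (ht : 0 ≤ t) : T (s + t) = (T s).comp (T t) := by
  ext1 g
  apply Lp.ext
  have h3 := (measurePreserving_sub_right (volume : Measure ℝ) s).quasiMeasurePreserving.ae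
    (coeFn_T t g)
  filter_upwards [coeFn_T (s + t) g, coeFn_T s (T t g), coeFn_T t g, h3] with x h1 h2 h4 h5
  rw [ContinuousLinearMap.comp_apply, h1, h2, h4, h5]
  by_cases h : x ≤ 0
  · have e1 : pz x = 1 := if_pos h
    have e2 : mt (s + t) x = 0 := by unfold mt; rw [if_neg]; intro h3; linarith [h3.2]
    have e3 : mt s x = 0 := by unfold mt; rw [if_neg]; intro h3; linarith [h3.2]
    have e4 : mt t x = 0 := by unfold mt; rw [if_neg]; intro h3; linarith [h3.2]
    rw [e1, e2, e3, e4]; simp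
  · push Not at h
    have e1 : pz x = 0 := if_neg (not_le.mpr h)
    rw [e1]
    by_cases hx : s < x
    · have e2 : pz (x - s) = 0 := if_neg (not_le.mpr (by linarith))
      rw [e2]
      by_cases hx2 : s + t < x
      · have e3 : mt (s + t) x = mt s x * mt t (x - s) := by
          unfold mt
          rw [if_pos ⟨by linarith, hx2⟩, if_pos ⟨hs, hx⟩, if_pos ⟨ht, by linarith⟩,
            ← Real.sqrt_mul (div_nonneg (by linarith) h.le)]
          congr 1
          have : x - s ≠ 0 := by linarith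
          field_simp
          ring
        rw [e3]
        have e4 : x - (s + t) = x - s - t := by ring
        rw [e4]
        push_cast
        ring
      · have e3 : mt (s + t) x = 0 := by unfold mt; rw [if_neg]; intro h3; exact hx2 h3.2
        have e4 : mt t (x - s) = 0 := by
          unfold mt; rw [if_neg]; intro h3; apply hx2; linarith [h3.2]
        rw [e3, e4]; simp
    · have e2 : mt s x = 0 := by unfold mt; rw [if_neg]; intro h3; exact hx h3.2
      have e3 : mt (s + t) x = 0 := by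
        unfold mt; rw [if_neg]; intro h3; apply hx; linarith [h3.2]
      rw [e2, e3]; simp

lemma integrable_shift (t : ℝ) (g : H) : Integrable fun x => ‖g (x - t)‖ ^ 2 :=
  (integrable_sq g).comp_sub_right t

lemma T_norm_le (t : ℝ) (ht : 0 ≤ t) : ‖T t‖ ≤ 1 := by
  refine ContinuousLinearMap.opNorm_le_bound _ zero_le_one fun g => ?_
  rw [one_mul]
  refine le_of_sq_le_sq ?_ (norm_nonneg _)
  rw [norm_sq, norm_sq]
  have h1 : ∫ x, ‖T t g x‖ ^ 2 ≤
      ∫ x, ((Set.Iic (0 : ℝ)).indicator (fun x => ‖g x‖ ^ 2) x +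
        (Set.Ioi (0 : ℝ)).indicator (fun x => ‖g x‖ ^ 2) (x - t)) := by
    refine integral_mono_ae (integrable_sq _) ?_ ?_
    · exact ((integrable_sq g).indicator measurableSet_Iic).add
        (((integrable_sq g).indicator measurableSet_Ioi).comp_sub_right t)
    · filter_upwards [coeFn_T t g] with x hx
      rw [hx]
      by_cases h : x ≤ 0
      · have e1 : pz x = 1 := if_pos h
        have e4 : mt t x = 0 := by unfold mt; rw [if_neg]; intro h3; linarith [h3.2]
        rw [e1, e4, Set.indicator_of_mem (Set.mem_Iic.mpr h),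
          Set.indicator_of_notMem (by simp; linarith)]
        simp
      · have e1 : pz x = 0 := if_neg h
        rw [e1, Set.indicator_of_notMem (by simpa using h)]
        by_cases hx2 : t < x
        · rw [Set.indicator_of_mem (by simp; linarith)]
          have := mt_le t x
          rw [Complex.ofReal_zero, zero_mul, zero_add, zero_add, norm_mul, Complex.norm_real,
            Real.norm_eq_abs]
          gcongr
          exact mul_le_of_le_one_left (norm_nonneg _) this
        · have e4 : mt t x = 0 := by unfold mt; rw [if_neg]; intro h3; exact hx2 h3.2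
          rw [e4, Set.indicator_of_notMem (by simp; linarith)]
          simp
  refine h1.trans (le_of_eq ?_)
  rw [integral_add ((integrable_sq g).indicator measurableSet_Iic)
    (((integrable_sq g).indicator measurableSet_Ioi).comp_sub_right t),
    integral_sub_right_eq_self (fun x => (Set.Ioi (0 : ℝ)).indicator (fun x => ‖g x‖ ^ 2) x) t,
    ← integral_add ((integrable_sq g).indicator measurableSet_Iic)
      ((integrable_sq g).indicator measurableSet_Ioi)]
  congr 1
  ext x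
  by_cases h : x ≤ 0
  · rw [Set.indicator_of_mem (Set.mem_Iic.mpr h), Set.indicator_of_notMem (by simpa using h), add_zero]
  · rw [Set.indicator_of_notMem (by simpa using h), Set.indicator_of_mem (by simpa using h), zero_add]

/-- coefficient of the shifted part -/
noncomputable def cA (ρ h x : ℝ) : ℝ :=
  if x ≤ h then 0 else if x < 2 * h then (1 - 5 / 2 * ρ) * ((x - h) / x) else (x - h) / x - ρ

/-- coefficient of the unshifted part -/
noncomputable def cB (ρ h x : ℝ) : ℝ :=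
  if x ≤ 0 then (1 - ρ) ^ 2 else if x ≤ h then ρ ^ 2 else
    if x < 2 * h then ρ ^ 2 - 2 / 5 * ρ else ρ ^ 2 - ρ * ((x - h) / x)

lemma cA_meas (ρ h : ℝ) : Measurable (cA ρ h) := by
  have h1 : Measurable fun x : ℝ => (x - h) / x := (measurable_id.sub_const h).div measurable_id
  refine Measurable.ite measurableSet_Iic measurable_const
    (Measurable.ite measurableSet_Iio (h1.const_mul _) (h1.sub_const _))

lemma cB_meas (ρ h : ℝ) : Measurable (cB ρ h) := by
  have h1 : Measurable fun x : ℝ => (x - h) / x := (measurable_id.sub_const h).div measurable_id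
  refine Measurable.ite measurableSet_Iic measurable_const
    (Measurable.ite measurableSet_Iic measurable_const
      (Measurable.ite measurableSet_Iio measurable_const (measurable_const.sub (h1.const_mul _))))

lemma quot_bd {h x : ℝ} (hh : 0 < h) (hx : h < x) : 0 ≤ (x - h) / x ∧ (x - h) / x ≤ 1 := by
  constructor
  · exact div_nonneg (by linarith) (by linarith)
  · rw [div_le_one (by linarith)]; linarith

lemma cA_bd {ρ h : ℝ} (hh : 0 < h) (h0 : 0 ≤ ρ) (h1 : ρ ≤ 1) (x : ℝ) : ‖cA ρ h x‖ ≤ 2 := by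
  rw [Real.norm_eq_abs, abs_le]
  unfold cA
  split_ifs with h2 h3
  · constructor <;> norm_num
  · obtain ⟨h4, h5⟩ := quot_bd hh (not_le.mp h2)
    constructor <;> nlinarith
  · obtain ⟨h4, h5⟩ := quot_bd hh (not_le.mp h2)
    constructor <;> nlinarith

lemma cB_bd {ρ h : ℝ} (hh : 0 < h) (h0 : 0 ≤ ρ) (h1 : ρ ≤ 1) (x : ℝ) : ‖cB ρ h x‖ ≤ 2 := by
  rw [Real.norm_eq_abs, abs_le]
  unfold cB
  split_ifs with h2 h3 h4
  · constructor <;> nlinarith
  · constructor <;> nlinarith
  · constructor <;> nlinarith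
  · obtain ⟨h4, h5⟩ := quot_bd hh (not_le.mp h3)
    constructor <;> nlinarith

lemma coef_ge {ρ h : ℝ} (hh : 0 < h) (h0 : 15 / 16 ≤ ρ) (h1 : ρ ≤ 1) (x : ℝ) :
    1 / 2 * (1 - ρ) ^ 2 ≤ cA ρ h (x + h) + cB ρ h x := by
  rcases le_or_gt x 0 with hx | hx
  · have e1 : cA ρ h (x + h) = 0 := if_pos (by linarith)
    have e2 : cB ρ h x = (1 - ρ) ^ 2 := if_pos hx
    rw [e1, e2]
    nlinarith [sq_nonneg (1 - ρ)]
  have hnx : ¬ x + h ≤ h := by linarith
  have hnx0 : ¬ x ≤ 0 := not_le.mpr hx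
  have hxh : 0 < x + h := by linarith
  have hq : (x + h - h) / (x + h) = x / (x + h) := by rw [add_sub_cancel_right]
  rcases lt_or_ge x h with h2 | h2
  · have e1 : cA ρ h (x + h) = (1 - 5 / 2 * ρ) * (x / (x + h)) := by
      unfold cA
      rw [if_neg hnx, if_pos (by linarith), hq]
    have e2 : cB ρ h x = ρ ^ 2 := by
      unfold cB
      rw [if_neg hnx0, if_pos h2.le]
    rw [e1, e2]
    have h3 : x / (x + h) ≤ 1 / 2 := by
      rw [div_le_iff₀ hxh]; linarith
    have h4 : (1 - 5 / 2 * ρ) * (1 / 2) ≤ (1 - 5 / 2 * ρ) * (x / (x + h)) := by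
      apply mul_le_mul_of_nonpos_left h3
      linarith
    nlinarith
  have e1 : cA ρ h (x + h) = x / (x + h) - ρ := by
    unfold cA
    rw [if_neg hnx, if_neg (by linarith), hq]
  have h3 : 1 / 2 ≤ x / (x + h) := by
    rw [le_div_iff₀ hxh]; linarith
  rcases eq_or_lt_of_le h2 with h4 | h4
  · have e2 : cB ρ h x = ρ ^ 2 := by
      unfold cB
      rw [if_neg hnx0, if_pos h4.symm.le]
    rw [e1, e2]
    nlinarith
  rcases lt_or_ge x (2 * h) with h5 | h5
  · have e2 : cB ρ h x = ρ ^ 2 - 2 / 5 * ρ := by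
      unfold cB
      rw [if_neg hnx0, if_neg (not_le.mpr h4), if_pos h5]
    rw [e1, e2]
    nlinarith
  · have e2 : cB ρ h x = ρ ^ 2 - ρ * ((x - h) / x) := by
      unfold cB
      rw [if_neg hnx0, if_neg (not_le.mpr h4), if_neg (not_lt.mpr h5)]
    rw [e1, e2]
    set s : ℝ := h / x with hs
    have hs0 : 0 < s := div_pos hh hx
    have hs1 : s ≤ 1 := by rw [hs, div_le_one hx]; linarith
    have e3 : (x - h) / x = 1 - s := by rw [hs]; field_simp
    have e4 : x / (x + h) = 1 / (1 + s) := by rw [hs]; field_simp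
    rw [e3, e4]
    have h6 : 1 - s + s ^ 2 / 2 ≤ 1 / (1 + s) := by
      rw [le_div_iff₀ (by linarith)]
      nlinarith [mul_pos hs0 hs0, mul_nonneg (mul_pos hs0 hs0).le (sub_nonneg.mpr hs1)]
    nlinarith [sq_nonneg (1 - ρ - s)]

/-- pointwise inequality -/
lemma pointwise {ρ h : ℝ} (hh : 0 < h) (h0 : 0 ≤ ρ) (ζ : ℂ) (hζ : ‖ζ‖ = ρ) (x : ℝ) (a b : ℂ) :
    cA ρ h x * ‖a‖ ^ 2 + cB ρ h x * ‖b‖ ^ 2 ≤
      ‖(pz x : ℂ) * b + (mt h x : ℂ) * a - ζ * b‖ ^ 2 := by
  rcases le_or_gt x 0 with hx | hx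
  · have e1 : cA ρ h x = 0 := if_pos (by linarith)
    have e2 : cB ρ h x = (1 - ρ) ^ 2 := if_pos hx
    have e3 : pz x = 1 := if_pos hx
    have e4 : mt h x = 0 := by unfold mt; rw [if_neg]; intro h3; linarith [h3.2]
    rw [e1, e2, e3, e4]
    have e5 : (((1 : ℝ) : ℂ) * b + ((0 : ℝ) : ℂ) * a - ζ * b) = (1 - ζ) * b := by push_cast; ring
    rw [e5, norm_mul, mul_pow, zero_mul, zero_add]
    refine mul_le_mul_of_nonneg_right ?_ (sq_nonneg _)
    have h2 := abs_norm_sub_norm_le (1 : ℂ) ζ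
    rw [norm_one, hζ] at h2
    rw [← sq_abs]
    gcongr
  have e3 : pz x = 0 := if_neg (not_le.mpr hx)
  have hnx0 : ¬ x ≤ 0 := not_le.mpr hx
  rw [e3]
  rcases le_or_gt x h with h2 | h2
  · have e1 : cA ρ h x = 0 := if_pos h2
    have e2 : cB ρ h x = ρ ^ 2 := by unfold cB; rw [if_neg hnx0, if_pos h2]
    have e4 : mt h x = 0 := by unfold mt; rw [if_neg]; intro h3; linarith [h3.2]
    rw [e1, e2, e4]
    have e5 : (((0 : ℝ) : ℂ) * b + ((0 : ℝ) : ℂ) * a - ζ * b) = -(ζ * b) := by push_cast; ring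
    rw [e5, norm_neg, norm_mul, hζ, mul_pow]
    linarith
  have hm := mt_sq hh.le h2
  have hm0 := mt_nonneg h x
  set m := mt h x with hmdef
  have h3 : m * ‖a‖ - ρ * ‖b‖ ≤ ‖(m : ℂ) * a - ζ * b‖ := by
    have := norm_sub_norm_le ((m : ℂ) * a) (ζ * b)
    rwa [norm_mul, norm_mul, hζ, Complex.norm_real, Real.norm_of_nonneg hm0] at this
  have h3' : ρ * ‖b‖ - m * ‖a‖ ≤ ‖(m : ℂ) * a - ζ * b‖ := by
    have := norm_sub_norm_le (ζ * b) ((m : ℂ) * a)
    rwa [norm_sub_rev, norm_mul, norm_mul, hζ, Complex.norm_real, Real.norm_of_nonneg hm0] at this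
  have h4 : (m * ‖a‖ - ρ * ‖b‖) ^ 2 ≤ ‖(m : ℂ) * a - ζ * b‖ ^ 2 := by
    rw [← sq_abs (m * ‖a‖ - ρ * ‖b‖)]
    have : |m * ‖a‖ - ρ * ‖b‖| ≤ ‖(m : ℂ) * a - ζ * b‖ := abs_le.mpr ⟨by linarith, h3⟩
    gcongr
  have e5 : (((0 : ℝ) : ℂ) * b + (m : ℂ) * a - ζ * b) = (m : ℂ) * a - ζ * b := by push_cast; ring
  rw [e5]
  refine le_trans ?_ h4
  have hna := norm_nonneg a
  have hnb := norm_nonneg b
  rcases lt_or_ge x (2 * h) with h5 | h5
  · have e1 : cA ρ h x = (1 - 5 / 2 * ρ) * ((x - h) / x) := by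
      unfold cA; rw [if_neg (not_le.mpr h2), if_pos h5]
    have e2 : cB ρ h x = ρ ^ 2 - 2 / 5 * ρ := by
      unfold cB; rw [if_neg hnx0, if_neg (not_le.mpr h2), if_pos h5]
    rw [e1, e2, ← hm]
    have h6 : 0 ≤ ρ * (5 / 2) * (m * ‖a‖ - 2 / 5 * ‖b‖) ^ 2 := by positivity
    nlinarith
  · have e1 : cA ρ h x = (x - h) / x - ρ := by
      unfold cA; rw [if_neg (not_le.mpr h2), if_neg (not_lt.mpr h5)]
    have e2 : cB ρ h x = ρ ^ 2 - ρ * ((x - h) / x) := by
      unfold cB; rw [if_neg hnx0, if_neg (not_le.mpr h2), if_neg (not_lt.mpr h5)]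
    rw [e1, e2, ← hm]
    have h6 : 0 ≤ ρ * (‖a‖ - m * ‖b‖) ^ 2 := by positivity
    nlinarith

/-- lower bound for `T h - ζ` -/
lemma lower_bound {h : ℝ} (hh : 0 < h) (ζ : ℂ) (h0 : 15 / 16 ≤ ‖ζ‖) (h1 : ‖ζ‖ ≤ 1) (g : H) :
    1 / 2 * (1 - ‖ζ‖) * ‖g‖ ≤ ‖T h g - ζ • g‖ := by
  set ρ := ‖ζ‖ with hρ
  have hρ0 : 0 ≤ ρ := norm_nonneg _
  have hkey : 1 / 2 * (1 - ρ) ^ 2 * ‖g‖ ^ 2 ≤ ‖T h g - ζ • g‖ ^ 2 := by
    rw [norm_sq, norm_sq, ← integral_const_mul]
    have hiA : Integrable fun x => cA ρ h x * ‖g (x - h)‖ ^ 2 :=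
      (integrable_shift h g).bdd_mul (cA_meas ρ h).aestronglyMeasurable
        (Eventually.of_forall fun x => cA_bd hh hρ0 h1 x)
    have hiB : Integrable fun x => cB ρ h x * ‖g x‖ ^ 2 :=
      (integrable_sq g).bdd_mul (cB_meas ρ h).aestronglyMeasurable
        (Eventually.of_forall fun x => cB_bd hh hρ0 h1 x)
    have hiA' : Integrable fun x => cA ρ h (x + h) * ‖g x‖ ^ 2 :=
      (integrable_sq g).bdd_mul
        ((cA_meas ρ h).comp (measurable_id.add_const h)).aestronglyMeasurable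
        (Eventually.of_forall fun x => cA_bd hh hρ0 h1 _)
    have hshift : ∫ x, cA ρ h x * ‖g (x - h)‖ ^ 2 = ∫ x, cA ρ h (x + h) * ‖g x‖ ^ 2 := by
      have := integral_sub_right_eq_self (μ := (volume : Measure ℝ))
        (fun x => cA ρ h (x + h) * ‖g x‖ ^ 2) h
      simpa using this
    calc ∫ x, 1 / 2 * (1 - ρ) ^ 2 * ‖g x‖ ^ 2
        ≤ ∫ x, (cA ρ h (x + h) * ‖g x‖ ^ 2 + cB ρ h x * ‖g x‖ ^ 2) := by
          refine integral_mono ((integrable_sq g).const_mul _) (hiA'.add hiB) fun x => ?_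
          beta_reduce
          rw [← add_mul]
          exact mul_le_mul_of_nonneg_right (coef_ge hh h0 h1 x) (sq_nonneg _)
      _ = ∫ x, (cA ρ h x * ‖g (x - h)‖ ^ 2 + cB ρ h x * ‖g x‖ ^ 2) := by
          rw [integral_add hiA' hiB, integral_add hiA hiB, hshift]
      _ ≤ ∫ x, ‖(T h g - ζ • g : H) x‖ ^ 2 := by
          refine integral_mono_ae (hiA.add hiB) (integrable_sq _) ?_
          filter_upwards [Lp.coeFn_sub (T h g) (ζ • g), Lp.coeFn_smul ζ g, coeFn_T h g] with x h3 h4 h5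
          rw [h3, Pi.sub_apply, h4, Pi.smul_apply, h5, smul_eq_mul]
          exact pointwise hh hρ0 ζ rfl x _ _
  have h2 : 0 ≤ 1 - ρ := by linarith
  refine le_of_sq_le_sq ?_ (norm_nonneg _)
  refine le_trans ?_ hkey
  rw [mul_pow, mul_pow]
  have h3 : 0 ≤ (1 - ρ) ^ 2 * ‖g‖ ^ 2 := by positivity
  nlinarith

/-- the resolvent condition -/
lemma resolvent (x y : H) (hxy : Tendsto (fun h : ℝ => ((h : ℂ)⁻¹) • (T h x - x))
    (nhdsWithin 0 (Set.Ioi 0)) (nhds y)) (μ : ℂ) (hμ : μ.re < 0) :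
    1 / 2 * |μ.re| * ‖x‖ ≤ ‖μ • x - y‖ := by
  -- difference quotient of the exponential
  have hexp : Tendsto (fun h : ℝ => ((h : ℂ)⁻¹) * (Complex.exp (μ * h) - 1))
      (nhdsWithin 0 (Set.Ioi 0)) (nhds μ) := by
    have h1 : HasDerivAt (fun h : ℝ => Complex.exp (μ * h)) μ 0 := by
      have h2 : HasDerivAt (fun h : ℝ => μ * (h : ℂ)) μ 0 := by
        simpa using (Complex.ofRealCLM.hasDerivAt (x := (0 : ℝ))).const_mul μ
      have h3 := h2.cexp
      simpa using h3
    have h4 := h1.tendsto_slope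
    have h5 : Tendsto (slope (fun h : ℝ => Complex.exp (μ * h)) 0) (nhdsWithin 0 (Set.Ioi 0))
        (nhds μ) := h4.mono_left (nhdsWithin_mono 0 (fun z hz => ne_of_gt hz))
    refine h5.congr fun h => ?_
    rw [slope_def_module]
    simp
  have hexpr : Tendsto (fun h : ℝ => h⁻¹ * (1 - Real.exp (μ.re * h)))
      (nhdsWithin 0 (Set.Ioi 0)) (nhds (-μ.re)) := by
    have h1 : HasDerivAt (fun h : ℝ => -Real.exp (μ.re * h)) (-μ.re) 0 := by
      have h2 : HasDerivAt (fun h : ℝ => μ.re * h) μ.re 0 := by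
        simpa using (hasDerivAt_id (0 : ℝ)).const_mul μ.re
      have h3 : HasDerivAt (fun h : ℝ => -Real.exp (μ.re * h)) (-(Real.exp (μ.re * 0) * μ.re)) 0 :=
        h2.exp.neg
      rw [mul_zero, Real.exp_zero, one_mul] at h3
      exact h3
    have h4 := h1.tendsto_slope
    have h5 := h4.mono_left (nhdsWithin_mono 0 (fun z (hz : z ∈ Set.Ioi (0 : ℝ)) => ne_of_gt hz))
    refine h5.congr fun h => ?_
    rw [slope_def_module]
    simp
    left
    ring
  have hlhs : Tendsto (fun h : ℝ => 1 / 2 * (h⁻¹ * (1 - Real.exp (μ.re * h))) * ‖x‖)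
      (nhdsWithin 0 (Set.Ioi 0)) (nhds (1 / 2 * (-μ.re) * ‖x‖)) :=
    (hexpr.const_mul _).mul_const _
  have hrhs : Tendsto (fun h : ℝ => ‖((h : ℂ)⁻¹ * (Complex.exp (μ * h) - 1)) • x -
      ((h : ℂ)⁻¹) • (T h x - x)‖) (nhdsWithin 0 (Set.Ioi 0)) (nhds ‖μ • x - y‖) :=
    ((hexp.smul_const x).sub hxy).norm
  rw [abs_of_neg hμ]
  refine le_of_tendsto_of_tendsto hlhs hrhs ?_
  have hsmall : ∀ᶠ h : ℝ in nhdsWithin 0 (Set.Ioi 0), 15 / 16 ≤ Real.exp (μ.re * h) := by
    have h1 : Tendsto (fun h : ℝ => Real.exp (μ.re * h)) (nhdsWithin 0 (Set.Ioi 0)) (nhds 1) := by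
      have : Continuous fun h : ℝ => Real.exp (μ.re * h) := by fun_prop
      have h2 := this.tendsto 0
      rw [mul_zero, Real.exp_zero] at h2
      exact h2.mono_left nhdsWithin_le_nhds
    filter_upwards [h1.eventually_const_lt (by norm_num : (15 / 16 : ℝ) < 1)] with h hh using hh.le
  filter_upwards [hsmall, self_mem_nhdsWithin] with h hs (hpos : 0 < h)
  have hn : ‖Complex.exp (μ * h)‖ = Real.exp (μ.re * h) := by
    rw [Complex.norm_exp]; simp
  have h1 := lower_bound hpos (Complex.exp (μ * h)) (by rw [hn]; exact hs) (by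
    rw [hn]; exact Real.exp_le_one_iff.mpr (by nlinarith)) x
  rw [hn] at h1
  have h2 : ((h : ℂ)⁻¹ * (Complex.exp (μ * h) - 1)) • x - ((h : ℂ)⁻¹) • (T h x - x) =
      -(((h : ℂ)⁻¹) • (T h x - Complex.exp (μ * h) • x)) := by
    simp only [smul_sub, mul_smul, sub_smul, mul_sub, mul_one]
    abel
  rw [h2, norm_neg, norm_smul, norm_inv, Complex.norm_real, Real.norm_of_nonneg hpos.le]
  calc 1 / 2 * (h⁻¹ * (1 - Real.exp (μ.re * h))) * ‖x‖
      = h⁻¹ * (1 / 2 * (1 - Real.exp (μ.re * h)) * ‖x‖) := by ring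
    _ ≤ _ := mul_le_mul_of_nonneg_left h1 (by positivity)

/-- the defect multiplier -/
noncomputable def dd (h x : ℝ) : ℝ := pz x + mt h x - 1

lemma dd_meas (h : ℝ) : Measurable (dd h) := (pz_meas.add (mt_meas h)).sub_const 1

lemma dd_le (h x : ℝ) : |dd h x| ≤ 1 := by
  have h1 := mt_nonneg h x
  have h2 := mt_le h x
  rw [abs_of_nonneg h1] at h2
  unfold dd
  by_cases hx : x ≤ 0
  · have e1 : pz x = 1 := if_pos hx
    have e2 : mt h x = 0 := by unfold mt; rw [if_neg]; intro h3; linarith [h3.1, h3.2]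
    rw [e1, e2]; simp
  · have e1 : pz x = 0 := if_neg hx
    rw [e1, abs_le]
    constructor <;> linarith

lemma dd_tendsto (x : ℝ) : Tendsto (fun h => dd h x) (nhdsWithin 0 (Set.Ici 0)) (nhds 0) := by
  by_cases hx : x ≤ 0
  · have e1 : pz x = 1 := if_pos hx
    have e2 : ∀ h, mt h x = 0 := fun h => by
      unfold mt; rw [if_neg]; intro h3; linarith [h3.1, h3.2]
    simp only [dd, e1, e2]
    simp
  · push Not at hx
    have e1 : pz x = 0 := if_neg (not_le.mpr hx)
    have h1 : Tendsto (fun h : ℝ => 0 + Real.sqrt ((x - h) / x) - 1) (nhdsWithin 0 (Set.Ici 0))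
        (nhds 0) := by
      have h2 : Continuous fun h : ℝ => 0 + Real.sqrt ((x - h) / x) - 1 := by fun_prop
      have h3 := h2.tendsto 0
      rw [sub_zero, div_self hx.ne', Real.sqrt_one, zero_add, sub_self] at h3
      exact h3.mono_left nhdsWithin_le_nhds
    refine h1.congr' ?_
    have h4 : ∀ᶠ h : ℝ in nhdsWithin 0 (Set.Ici 0), h < x :=
      nhdsWithin_le_nhds (Iio_mem_nhds hx)
    filter_upwards [h4, self_mem_nhdsWithin] with h h5 (h6 : 0 ≤ h)
    unfold dd mt
    rw [e1, if_pos ⟨h6, h5⟩]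

lemma T_sub (h : ℝ) (g : H) : T h g - g =
    mulOp (mt h) (mt_meas h) (mt_le h) (S h g - g) + mulOp (dd h) (dd_meas h) (dd_le h) g := by
  have h1 : T h g = mulOp pz pz_meas pz_le g + mulOp (mt h) (mt_meas h) (mt_le h) (S h g) := rfl
  have h2 : mulOp (dd h) (dd_meas h) (dd_le h) g =
      mulOp pz pz_meas pz_le g + mulOp (mt h) (mt_meas h) (mt_le h) g - g := by
    apply Lp.ext
    filter_upwards [coeFn_mulOp (dd h) (dd_meas h) (dd_le h) g, coeFn_mulOp pz pz_meas pz_le g,
      coeFn_mulOp (mt h) (mt_meas h) (mt_le h) g,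
      Lp.coeFn_sub (mulOp pz pz_meas pz_le g + mulOp (mt h) (mt_meas h) (mt_le h) g) g,
      Lp.coeFn_add (mulOp pz pz_meas pz_le g) (mulOp (mt h) (mt_meas h) (mt_le h) g)]
      with x e1 e2 e3 e4 e5
    rw [e1, e4, Pi.sub_apply, e5, Pi.add_apply, e2, e3]
    unfold dd
    push_cast
    ring
  rw [h1, h2, map_sub]
  abel

lemma norm_mulOp_le (m : ℝ → ℝ) (hm : Measurable m) (hb : ∀ x, |m x| ≤ 1) (f : H) :
    ‖mulOp m hm hb f‖ ≤ ‖f‖ := by
  refine Lp.norm_le_norm_of_ae_le ?_
  filter_upwards [coeFn_mulOp m hm hb f] with x hx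
  rw [hx, norm_mul, Complex.norm_real, Real.norm_eq_abs]
  exact mul_le_of_le_one_left (norm_nonneg _) (hb x)

lemma S_tendsto (g : H) : Tendsto (fun h => S h g) (nhdsWithin 0 (Set.Ici 0)) (nhds g) := by
  have h1 : Continuous fun h : ℝ => (⟨fun x : ℝ => x - h, by fun_prop⟩ : C(ℝ, ℝ)) := by
    refine ContinuousMap.continuous_of_continuous_uncurry _ ?_
    change Continuous fun p : ℝ × ℝ => p.2 - p.1
    fun_prop
  have h2 := Filter.Tendsto.compMeasurePreservingLp (E := ℂ) (p := 2)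
    (μ := (volume : Measure ℝ)) (ν := (volume : Measure ℝ))
    (tendsto_const_nhds (x := g) (f := nhdsWithin (0 : ℝ) (Set.Ici 0)))
    ((h1.tendsto 0).mono_left nhdsWithin_le_nhds)
    (fun h => measurePreserving_sub_right volume h) (measurePreserving_sub_right volume 0)
    (by norm_num)
  have h3 : S 0 g = g := by
    apply Lp.ext
    filter_upwards [coeFn_S 0 g] with x hx
    rw [hx, sub_zero]
  nth_rewrite 2 [← h3]
  exact h2

lemma T_tendsto (g : H) : Tendsto (fun h => T h g) (nhdsWithin 0 (Set.Ici 0)) (nhds g) := by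
  have h1 : Tendsto (fun h => ‖S h g - g‖) (nhdsWithin 0 (Set.Ici 0)) (nhds 0) := by
    have := ((S_tendsto g).sub_const g).norm
    rwa [sub_self, norm_zero] at this
  have h2 : Tendsto (fun h => ‖mulOp (dd h) (dd_meas h) (dd_le h) g‖) (nhdsWithin 0 (Set.Ici 0))
      (nhds 0) := by
    have h3 : Tendsto (fun h => ‖mulOp (dd h) (dd_meas h) (dd_le h) g‖ ^ 2)
        (nhdsWithin 0 (Set.Ici 0)) (nhds 0) := by
      have h4 : ∀ h, ‖mulOp (dd h) (dd_meas h) (dd_le h) g‖ ^ 2 = ∫ x, (dd h x) ^ 2 * ‖g x‖ ^ 2 := by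
        intro h
        rw [norm_sq]
        refine integral_congr_ae ?_
        filter_upwards [coeFn_mulOp (dd h) (dd_meas h) (dd_le h) g] with x hx
        rw [hx, norm_mul, Complex.norm_real, mul_pow, Real.norm_eq_abs, sq_abs]
      simp_rw [h4]
      suffices h5 : Tendsto (fun h => ∫ x, (dd h x) ^ 2 * ‖g x‖ ^ 2) (nhdsWithin 0 (Set.Ici 0))
          (nhds (∫ x, (0 : ℝ) ^ 2 * ‖g x‖ ^ 2)) by simpa using h5
      refine tendsto_integral_filter_of_dominated_convergence (fun x => ‖g x‖ ^ 2) ?_ ?_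
        (integrable_sq g) ?_
      · refine Eventually.of_forall fun h => ?_
        exact ((dd_meas h).pow_const 2).aestronglyMeasurable.mul (integrable_sq g).1
      · refine Eventually.of_forall fun h => Eventually.of_forall fun x => ?_
        rw [norm_mul, norm_pow, norm_pow, norm_norm]
        have : ‖dd h x‖ ^ 2 ≤ 1 := pow_le_one₀ (norm_nonneg _) (dd_le h x)
        exact mul_le_of_le_one_left (sq_nonneg _) this
      · refine Eventually.of_forall fun x => ?_
        exact ((dd_tendsto x).pow 2).mul_const _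
    have h6 := h3.sqrt
    rw [Real.sqrt_zero] at h6
    refine h6.congr fun h => ?_
    rw [Real.sqrt_sq (norm_nonneg _)]
  rw [tendsto_iff_norm_sub_tendsto_zero]
  have h3 := h1.add h2
  rw [add_zero] at h3
  refine squeeze_zero (fun _ => norm_nonneg _) (fun h => ?_) h3
  rw [T_sub]
  exact (norm_add_le _ _).trans (add_le_add (norm_mulOp_le _ _ _ _) le_rfl)

lemma T_cont (g : H) : ContinuousOn (fun t : ℝ => T t g) (Set.Ici 0) := by
  have hkey : ∀ s t : ℝ, 0 ≤ s → 0 ≤ t → s ≤ t → ‖T t g - T s g‖ ≤ ‖T (t - s) g - g‖ := by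
    intro s t hs ht hst
    have h1 : T t g - T s g = T s (T (t - s) g - g) := by
      rw [map_sub, ← ContinuousLinearMap.comp_apply, ← T_add s (t - s) hs (by linarith),
        add_sub_cancel]
    rw [h1]
    exact ((T s).le_opNorm _).trans (mul_le_of_le_one_left (norm_nonneg _) (T_norm_le s hs))
  have hkey2 : ∀ s t : ℝ, 0 ≤ s → 0 ≤ t → ‖T t g - T s g‖ ≤ ‖T |t - s| g - g‖ := by
    intro s t hs ht
    rcases le_total s t with h | h
    · rw [abs_of_nonneg (by linarith)]
      exact hkey s t hs ht h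
    · rw [abs_of_nonpos (by linarith), norm_sub_rev, neg_sub]
      exact hkey t s ht hs h
  intro s hs
  rw [ContinuousWithinAt, tendsto_iff_norm_sub_tendsto_zero]
  have h1 : Tendsto (fun t : ℝ => |t - s|) (nhdsWithin s (Set.Ici 0)) (nhdsWithin 0 (Set.Ici 0)) := by
    refine tendsto_nhdsWithin_of_tendsto_nhds_of_eventually_within _ ?_
      (Eventually.of_forall fun t => Set.mem_Ici.mpr (abs_nonneg _))
    have : Continuous fun t : ℝ => |t - s| := by fun_prop
    have h2 := this.tendsto s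
    rw [sub_self, abs_zero] at h2
    exact h2.mono_left nhdsWithin_le_nhds
  have h2 : Tendsto (fun t : ℝ => ‖T |t - s| g - g‖) (nhdsWithin s (Set.Ici 0)) (nhds 0) := by
    have h3 := (((T_tendsto g).comp h1).sub_const g).norm
    rw [sub_self, norm_zero] at h3
    exact h3
  refine squeeze_zero' (Eventually.of_forall fun _ => norm_nonneg _) ?_ h2
  filter_upwards [self_mem_nhdsWithin] with t ht
  exact hkey2 s t hs ht

/-- the test vector -/
noncomputable def x0 : H :=
  indicatorConstLp 2 (measurableSet_Ioc (a := (0 : ℝ)) (b := 1)) (by simp) (1 : ℂ)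

lemma x0_ae : x0 =ᵐ[volume] (Set.Ioc (0 : ℝ) 1).indicator fun _ => (1 : ℂ) :=
  indicatorConstLp_coeFn

lemma norm_x0 : ‖x0‖ ^ 2 = 1 := by
  rw [norm_sq]
  have h1 : ∫ x, ‖x0 x‖ ^ 2 = ∫ x, (Set.Ioc (0 : ℝ) 1).indicator (fun _ => (1 : ℝ)) x := by
    refine integral_congr_ae ?_
    filter_upwards [x0_ae] with x hx
    rw [hx]
    by_cases h : x ∈ Set.Ioc (0 : ℝ) 1
    · rw [Set.indicator_of_mem h, Set.indicator_of_mem h]; simp
    · rw [Set.indicator_of_notMem h, Set.indicator_of_notMem h]; simp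
  rw [h1, integral_indicator measurableSet_Ioc]
  simp

lemma norm_T_x0 (t : ℝ) (ht : 0 < t) : ‖T t x0‖ ^ 2 ≤ 1 / t := by
  rw [norm_sq]
  have hx0s := (measurePreserving_sub_right (volume : Measure ℝ) t).quasiMeasurePreserving.ae x0_ae
  have h1 : ∫ x, ‖T t x0 x‖ ^ 2 ≤ ∫ x, (Set.Ioc t (t + 1)).indicator (fun _ => 1 / t) x := by
    refine integral_mono_ae (integrable_sq _)
      ((integrable_indicator_iff measurableSet_Ioc).mpr (by simp)) ?_
    filter_upwards [coeFn_T t x0, x0_ae, hx0s] with x h2 h3 h4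
    rw [h2, h3, h4]
    by_cases hx : x ∈ Set.Ioc t (t + 1)
    · have e1 : pz x = 0 := if_neg (by linarith [hx.1])
      have e2 := mt_sq ht.le hx.1
      rw [Set.indicator_of_mem hx, e1, Set.indicator_of_mem (show x - t ∈ Set.Ioc (0 : ℝ) 1 from
        ⟨by linarith [hx.1], by linarith [hx.2]⟩)]
      rw [Complex.ofReal_zero, zero_mul, zero_add, mul_one, Complex.norm_real, Real.norm_eq_abs,
        sq_abs, e2]
      have hx0 : 0 < x := by linarith [hx.1]
      rw [div_le_div_iff₀ hx0 ht]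
      nlinarith [hx.1, hx.2]
    · rw [Set.indicator_of_notMem hx]
      have e3 : (Set.Ioc (0 : ℝ) 1).indicator (fun _ => (1 : ℂ)) (x - t) = 0 := by
        refine Set.indicator_of_notMem (fun h => hx ⟨?_, ?_⟩) _
        · linarith [h.1]
        · linarith [h.2]
      have e4 : (pz x : ℂ) * (Set.Ioc (0 : ℝ) 1).indicator (fun _ => (1 : ℂ)) x = 0 := by
        by_cases h : x ≤ 0
        · rw [Set.indicator_of_notMem (fun h2 => absurd h2.1 (not_lt.mpr h)), mul_zero]
        · have e1 : pz x = 0 := if_neg h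
          rw [e1]; simp
      rw [e3, e4]; simp
  refine h1.trans (le_of_eq ?_)
  rw [integral_indicator measurableSet_Ioc]
  simp

end Pool.Agent.H785R2.BergmanShift
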