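import Pool.Agent.H785R2.RieszMeas

set_option autoImplicit false
open Filter Topology MeasureTheory
open scoped ENNReal

namespace Pool.Agent.H785R2.MulSemi

open Pool.Agent.H785R2.VdC Pool.Agent.H785R2.RieszMeas

variable (μ : Measure E) [IsProbabilityMeasure μ]

/-- the Hilbert space -/
abbrev H : Type := Lp ℂ 2 μ

/-- multiplication operators -/
noncomputable def Mul : C(E, ℂ) →L[ℂ] (Lp ℂ 2 μ →L[ℂ] Lp ℂ 2 μ) :=
  ((ContinuousLinearMap.mul ℂ ℂ).holderL μ ∞ 2 2).comp (ContinuousMap.toLp ∞ μ ℂ)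

lemma coeFn_Mul (g : C(E, ℂ)) (f : Lp ℂ 2 μ) : Mul μ g f =ᵐ[μ] fun x => g x * f x := by
  have h1 : Mul μ g f = (ContinuousLinearMap.mul ℂ ℂ).holder 2 (ContinuousMap.toLp ∞ μ ℂ g) f := rfl
  rw [h1]
  filter_upwards [ContinuousLinearMap.coeFn_holder (r := 2) (ContinuousLinearMap.mul ℂ ℂ)
    (ContinuousMap.toLp ∞ μ ℂ g) f, ContinuousMap.coeFn_toLp (p := ∞) (𝕜 := ℂ) μ g] with x h2 h3
  rw [h2, h3]
  rfl

lemma Mul_mul (g h : C(E, ℂ)) : Mul μ (g * h) = Mul μ g * Mul μ h := by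
  ext1 f
  apply Lp.ext
  filter_upwards [coeFn_Mul μ (g * h) f, coeFn_Mul μ g (Mul μ h f), coeFn_Mul μ h f] with x h1 h2 h3
  rw [mul_apply_eq_comp, h1, h2, h3, ContinuousMap.mul_apply, mul_assoc]

lemma Mul_one : Mul μ 1 = 1 := by
  ext1 f
  apply Lp.ext
  filter_upwards [coeFn_Mul μ 1 f] with x h1
  rw [h1]
  simp

lemma norm_Mul_le (g : C(E, ℂ)) : ‖Mul μ g‖ ≤ ‖g‖ := by
  refine ContinuousLinearMap.opNorm_le_bound _ (norm_nonneg _) fun f => ?_
  refine Lp.norm_le_mul_norm_of_ae_le_mul ?_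
  filter_upwards [coeFn_Mul μ g f] with x h1
  rw [h1, norm_mul]
  exact mul_le_mul_of_nonneg_right (g.norm_coe_le_norm x) (norm_nonneg _)

/-- the exponentials -/
noncomputable def ex (t : ℝ) : C(E, ℂ) := ⟨chi t 0, continuous_chi t 0⟩

lemma ex_apply (t : ℝ) (x : E) : ex t x = Complex.exp ((t * (x : ℝ) : ℝ) * Complex.I) := by
  change chi t 0 x = _
  unfold chi ph
  simp

lemma ex_add (s t : ℝ) : ex (s + t) = ex s * ex t := by
  ext x
  change chi (s + t) 0 x = chi s 0 x * chi t 0 x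
  rw [chi_mul, add_zero]

lemma ex_zero : ex 0 = 1 := by
  ext x
  exact chi_zero x

lemma norm_ex_le (t : ℝ) : ‖ex t‖ ≤ 1 :=
  (ContinuousMap.norm_le _ zero_le_one).mpr fun x => (norm_chi t 0 x).le

lemma continuous_ex : Continuous ex := by
  refine ContinuousMap.continuous_of_continuous_uncurry _ ?_
  have : (Function.uncurry fun (t : ℝ) (x : E) => ex t x) =
      fun p : ℝ × E => Complex.exp ((p.1 * (p.2 : ℝ) : ℝ) * Complex.I) := by
    ext p
    exact ex_apply p.1 p.2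
  rw [this]
  fun_prop

/-- the semigroup -/
noncomputable def T (t : ℝ) : Lp ℂ 2 μ →L[ℂ] Lp ℂ 2 μ := Mul μ (ex t)

lemma T_zero : T μ 0 = 1 := by rw [T, ex_zero, Mul_one]

lemma T_add (s t : ℝ) : T μ (s + t) = T μ s * T μ t := by rw [T, ex_add, Mul_mul]; rfl

lemma T_cont (x : Lp ℂ 2 μ) : Continuous fun t : ℝ => T μ t x :=
  ((Mul μ).continuous.comp continuous_ex).clm_apply continuous_const

lemma norm_T_le (t : ℝ) : ‖T μ t‖ ≤ 1 := (norm_Mul_le μ _).trans (norm_ex_le t)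

/-- resolvent function -/
noncomputable def w : C(E, ℂ) where
  toFun x := 1 / (1 - (x : ℝ) * Complex.I)
  continuous_toFun := by
    refine Continuous.div (by fun_prop) (by fun_prop) fun x h => ?_
    have := congrArg Complex.re h
    simp at this

lemma integrable_exp_ex : IntegrableOn (fun t : ℝ => ((Real.exp (-t) : ℝ) : ℂ) • ex t)
    (Set.Ioi (0 : ℝ)) := by
  have hb : IntegrableOn (fun t : ℝ => Real.exp (-t)) (Set.Ioi (0 : ℝ)) := integrableOn_exp_neg_Ioi 0
  refine Integrable.mono' hb ?_ ?_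
  · refine Continuous.aestronglyMeasurable ?_
    have := continuous_ex
    fun_prop
  · refine Eventually.of_forall fun t => ?_
    rw [norm_smul, Complex.norm_real, Real.norm_of_nonneg (Real.exp_pos _).le]
    exact mul_le_of_le_one_right (Real.exp_pos _).le (norm_ex_le t)

lemma integral_exp_ex : ∫ t in Set.Ioi (0 : ℝ), ((Real.exp (-t) : ℝ) : ℂ) • ex t = w := by
  ext x
  have h := (ContinuousMap.evalCLM ℂ x).integral_comp_comm integrable_exp_ex
  simp only [ContinuousMap.evalCLM_apply] at h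
  rw [← h]
  have h1 : ∀ t : ℝ, (((Real.exp (-t) : ℝ) : ℂ) • ex t) x =
      Complex.exp ((-(1 - (x : ℝ) * Complex.I)) * t) := by
    intro t
    rw [ContinuousMap.smul_apply, ex_apply, smul_eq_mul, Complex.ofReal_exp, ← Complex.exp_add]
    congr 1
    push_cast
    ring
  simp_rw [h1]
  rw [integral_exp_mul_complex_Ioi]
  · rw [Complex.ofReal_zero, mul_zero, Complex.exp_zero, neg_div_neg_eq]
    rfl
  · simp

/-- the symbol of the cogenerator -/
noncomputable def v : C(E, ℂ) := 1 - (2 : ℂ) • w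

lemma V_eq (z : Lp ℂ 2 μ) : z - (2 : ℂ) • ∫ t in Set.Ioi (0 : ℝ), ((Real.exp (-t) : ℝ) : ℂ) • T μ t z =
    Mul μ v z := by
  have h1 : ∫ t in Set.Ioi (0 : ℝ), ((Real.exp (-t) : ℝ) : ℂ) • T μ t z = Mul μ w z := by
    let L : C(E, ℂ) →L[ℂ] Lp ℂ 2 μ := (ContinuousLinearMap.apply ℂ (Lp ℂ 2 μ) z).comp (Mul μ)
    have h2 := L.integral_comp_comm integrable_exp_ex
    rw [integral_exp_ex] at h2
    change _ = L w
    rw [← h2]
    refine integral_congr_ae (Eventually.of_forall fun t => ?_)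
    change _ = L _
    rw [map_smul]
    rfl
  rw [h1, v, map_sub, map_smul, Mul_one]
  rfl

lemma iterate_V (n : ℕ) (z : Lp ℂ 2 μ) : (fun z : Lp ℂ 2 μ => z - (2 : ℂ) •
    ∫ t in Set.Ioi (0 : ℝ), ((Real.exp (-t) : ℝ) : ℂ) • T μ t z)^[n] z = Mul μ (v ^ n) z := by
  have h : (fun z : Lp ℂ 2 μ => z - (2 : ℂ) •
    ∫ t in Set.Ioi (0 : ℝ), ((Real.exp (-t) : ℝ) : ℂ) • T μ t z) = fun z => Mul μ v z := by
    ext1 z
    exact V_eq μ z
  rw [h]
  induction n with
  | zero => rw [pow_zero, Mul_one]; rfl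
  | succ n ih =>
    rw [Function.iterate_succ_apply', ih, pow_succ', Mul_mul]
    rfl

lemma v_apply (x : E) : v x = - chi 0 1 x := by
  have h1 : v x = 1 - 2 * (1 / (1 - (x : ℝ) * Complex.I)) := rfl
  rw [h1]
  have h2 : chi 0 1 x = Complex.exp (Real.arctan x * Complex.I) ^ 2 := by
    rw [← Complex.exp_nat_mul]
    unfold chi ph
    congr 1
    push_cast
    ring
  have h3 : Complex.exp (Real.arctan x * Complex.I) =
      (1 + (x : ℝ) * Complex.I) / Real.sqrt (1 + (x : ℝ) ^ 2) := by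
    rw [Complex.exp_mul_I, ← Complex.ofReal_cos, ← Complex.ofReal_sin, Real.cos_arctan,
      Real.sin_arctan]
    push_cast
    ring
  have h4 : ((Real.sqrt (1 + (x : ℝ) ^ 2) : ℝ) : ℂ) ^ 2 = 1 + (x : ℝ) ^ 2 := by
    rw [← Complex.ofReal_pow, Real.sq_sqrt (by positivity)]
    push_cast; ring
  have h5 : (1 - (x : ℝ) * Complex.I : ℂ) ≠ 0 := by
    intro h
    have := congrArg Complex.re h
    simp at this
  have h6 : (1 + (x : ℝ) * Complex.I : ℂ) ≠ 0 := by
    intro h
    have := congrArg Complex.re h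
    simp at this
  have h7 : (1 + (x : ℝ) ^ 2 : ℂ) = (1 + (x : ℝ) * Complex.I) * (1 - (x : ℝ) * Complex.I) := by
    ring_nf
    rw [Complex.I_sq]
    ring
  rw [h2, h3, div_pow, h4, h7]
  field_simp
  ring

lemma chi_pow (n : ℕ) (x : E) : chi 0 1 x ^ n = chi 0 n x := by
  induction n with
  | zero => simp [chi_zero]
  | succ n ih =>
    rw [pow_succ, ih, chi_mul]
    simp

lemma v_pow_even (n : ℕ) (hn : Even n) (x : E) : (v ^ n) x = chi 0 n x := by
  rw [ContinuousMap.pow_apply, v_apply, hn.neg_pow, chi_pow]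

/-- the constant one -/
noncomputable def cc (a : ℝ) : Lp ℂ 2 μ := ContinuousMap.toLp 2 μ ℂ (ex a)

lemma inner_Mul (g : C(E, ℂ)) (a b : ℝ) :
    inner ℂ (Mul μ g (cc μ a)) (cc μ b) = (starRingEnd ℂ) (∫ x, g x * chi (a - b) 0 x ∂μ) := by
  rw [L2.inner_def, ← integral_conj]
  refine integral_congr_ae ?_
  filter_upwards [coeFn_Mul μ g (cc μ a), ContinuousMap.coeFn_toLp (p := 2) (𝕜 := ℂ) μ (ex a),
    ContinuousMap.coeFn_toLp (p := 2) (𝕜 := ℂ) μ (ex b)] with x h1 h2 h3
  rw [h1, cc, cc, h2, h3]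
  have h4 : chi (a - b) 0 x = ex a x * (starRingEnd ℂ) (ex b x) := by
    rw [ex_apply, ex_apply, ← Complex.exp_conj, ← Complex.exp_add]
    unfold chi ph
    congr 1
    rw [map_mul, Complex.conj_ofReal, Complex.conj_I]
    push_cast
    ring
  rw [h4]
  simp [RCLike.inner_apply]
  ring

/-- cogenerator is not weakly stable -/
lemma not_stable_V {n : ℕ → ℕ} (hn : StrictMono n) (he : ∀ j, Even (n j))
    (h8 : ∀ j, 1 / 8 ≤ ‖F μ 0 (n j)‖) :
    ¬ ∀ x y : Lp ℂ 2 μ, Tendsto (fun k : ℕ =>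
            inner ℂ ((fun z : Lp ℂ 2 μ => z - (2 : ℂ) •
              ∫ t in Set.Ioi (0 : ℝ), ((Real.exp (-t) : ℝ) : ℂ) • T μ t z)^[k] x) y)
            atTop (𝓝 0) := by
  intro h
  have h1 := (h (cc μ 0) (cc μ 0)).comp hn.tendsto_atTop
  have h2 : ∀ j, ‖inner ℂ ((fun z : Lp ℂ 2 μ => z - (2 : ℂ) •
              ∫ t in Set.Ioi (0 : ℝ), ((Real.exp (-t) : ℝ) : ℂ) • T μ t z)^[n j] (cc μ 0)) (cc μ 0)‖ =
              ‖F μ 0 (n j)‖ := by
    intro j
    rw [iterate_V, inner_Mul, RCLike.norm_conj]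
    congr 1
    unfold F
    refine integral_congr_ae (Eventually.of_forall fun x => ?_)
    simp only
    rw [v_pow_even _ (he j), sub_self, chi_zero, mul_one]
  have h3 := h1.norm
  rw [norm_zero] at h3
  have h4 := ge_of_tendsto' h3 (b := (1 / 8 : ℝ)) (fun j => by
    have := h8 j
    simp only [Function.comp]
    rw [h2 j]
    exact this)
  norm_num at h4

/-- the characters as a monoid homomorphism -/
noncomputable def exHom : Multiplicative ℝ →* C(E, ℂ) where
  toFun a := ex a.toAdd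
  map_one' := ex_zero
  map_mul' _ _ := ex_add _ _

lemma star_range : star (Set.range ex) = Set.range ex := by
  ext g
  rw [Set.mem_star]
  constructor
  · rintro ⟨a, ha⟩
    refine ⟨-a, ?_⟩
    rw [← star_star g, ← ha]
    ext x
    rw [ex_apply, ContinuousMap.star_apply, ex_apply]
    change _ = (starRingEnd ℂ) _
    rw [← Complex.exp_conj]
    simp
  · rintro ⟨a, rfl⟩
    refine ⟨-a, ?_⟩
    ext x
    rw [ex_apply, ContinuousMap.star_apply, ex_apply]
    change _ = (starRingEnd ℂ) _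
    rw [← Complex.exp_conj]
    simp

lemma adjoin_eq : (Submodule.span ℂ (Set.range ex)) =
    Subalgebra.toSubmodule (StarAlgebra.adjoin ℂ (Set.range ex)).toSubalgebra := by
  rw [StarAlgebra.adjoin_toSubalgebra, star_range, Set.union_self, Algebra.adjoin_eq_span]
  congr 1
  have h1 : Set.range ex = (MonoidHom.mrange exHom : Set C(E, ℂ)) := by
    ext g
    constructor
    · rintro ⟨a, rfl⟩
      exact ⟨Multiplicative.ofAdd a, rfl⟩
    · rintro ⟨a, rfl⟩
      exact ⟨a.toAdd, rfl⟩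
  rw [h1, Submonoid.closure_eq]

lemma dense_span : Dense (Submodule.span ℂ (Set.range ex) : Set C(E, ℂ)) := by
  have h1 := ContinuousMap.starSubalgebra_topologicalClosure_eq_top_of_separatesPoints
    (StarAlgebra.adjoin ℂ (Set.range ex)) (by
      intro x y hxy
      refine ⟨ex 1, ⟨ex 1, ?_, rfl⟩, ?_⟩
      · exact StarAlgebra.subset_adjoin ℂ _ ⟨1, rfl⟩
      · intro h
        apply hxy
        rw [ex_apply, ex_apply] at h
        have h2 := congrArg Complex.re h
        rw [Complex.exp_ofReal_mul_I_re, Complex.exp_ofReal_mul_I_re, one_mul, one_mul] at h2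
        have hpi := Real.pi_gt_three
        apply Subtype.ext
        refine Real.injOn_cos ⟨?_, ?_⟩ ⟨?_, ?_⟩ h2
        · linarith [x.2.1]
        · linarith [x.2.2]
        · linarith [y.2.1]
        · linarith [y.2.2])
  rw [dense_iff_closure_eq]
  have h2 : (closure ((StarAlgebra.adjoin ℂ (Set.range ex) : StarSubalgebra ℂ C(E, ℂ)) :
      Set C(E, ℂ))) = Set.univ := by
    rw [← StarSubalgebra.topologicalClosure_coe, h1]
    rfl
  rw [← h2]
  congr 1
  rw [adjoin_eq]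
  rfl

lemma dense_span_Lp : Dense (Submodule.span ℂ (Set.range (cc μ)) : Set (Lp ℂ 2 μ)) := by
  have h1 := (ContinuousMap.toLp_denseRange (p := 2) ℂ μ ℂ (by norm_num)).dense_image
    (ContinuousMap.toLp (E := ℂ) 2 μ ℂ).continuous dense_span
  have h2 : (ContinuousMap.toLp (E := ℂ) 2 μ ℂ) '' (Submodule.span ℂ (Set.range ex) : Set C(E, ℂ)) =
      (Submodule.span ℂ (Set.range (cc μ)) : Set (Lp ℂ 2 μ)) := by
    have h3 := Submodule.map_span (ContinuousMap.toLp (E := ℂ) 2 μ ℂ : C(E, ℂ) →ₗ[ℂ] Lp ℂ 2 μ)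
      (Set.range ex)
    rw [← Set.range_comp] at h3
    have h4 := congrArg (fun S : Submodule ℂ (Lp ℂ 2 μ) => (S : Set (Lp ℂ 2 μ))) h3
    exact h4
  rwa [h2] at h1

lemma tendsto_inner_cc (hd : ∀ ε : ℝ, 0 < ε → ∃ N : ℕ, ∀ s : ℝ, (N : ℝ) ≤ |s| → ‖F μ s 0‖ ≤ ε)
    (a b : ℝ) : Tendsto (fun t : ℝ => inner ℂ (T μ t (cc μ a)) (cc μ b)) atTop (𝓝 0) := by
  rw [tendsto_zero_iff_norm_tendsto_zero, Metric.tendsto_atTop]
  intro ε hε
  obtain ⟨N, hN⟩ := hd (ε / 2) (by positivity)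
  refine ⟨N + |a - b|, fun t ht => ?_⟩
  rw [T, inner_Mul, dist_zero_right, norm_norm, RCLike.norm_conj]
  have h1 : ∫ x, ex t x * chi (a - b) 0 x ∂μ = F μ (t + (a - b)) 0 := by
    unfold F
    refine integral_congr_ae (Eventually.of_forall fun x => ?_)
    change chi t 0 x * chi (a - b) 0 x = _
    rw [chi_mul, add_zero]
  rw [h1]
  refine lt_of_le_of_lt (hN _ ?_) (by linarith)
  have h2 := neg_abs_le (a - b)
  have h3 := le_abs_self (t + (a - b))
  have h4 := le_abs_self (a - b)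
  linarith

/-- closed under limits -/
lemma stable_T (hd : ∀ ε : ℝ, 0 < ε → ∃ N : ℕ, ∀ s : ℝ, (N : ℝ) ≤ |s| → ‖F μ s 0‖ ≤ ε) :
    ∀ x y : Lp ℂ 2 μ, Tendsto (fun t : ℝ => inner ℂ (T μ t x) y) atTop (𝓝 0) := by
  -- general extension principle
  have key : ∀ (G : ℝ → Lp ℂ 2 μ → ℂ) (C : ℝ), (∀ t x y, ‖G t x - G t y‖ ≤ C * ‖x - y‖) →
      (∀ t x y, G t (x + y) = G t x + G t y) →
      (∀ t (c : ℂ) x, ‖G t (c • x)‖ = ‖c‖ * ‖G t x‖) →
      (∀ a, Tendsto (fun t => G t (cc μ a)) atTop (𝓝 0)) →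
      ∀ x, Tendsto (fun t => G t x) atTop (𝓝 0) := by
    intro G C hG hadd hsmul hcc x
    have h0 : ∀ t, G t 0 = 0 := by
      intro t
      have := hsmul t 0 0
      rw [zero_smul, norm_zero, zero_mul, norm_eq_zero] at this
      exact this
    have hspan : ∀ z ∈ Submodule.span ℂ (Set.range (cc μ)), Tendsto (fun t => G t z) atTop (𝓝 0) := by
      intro z hz
      induction hz using Submodule.span_induction with
      | mem z hz =>
        obtain ⟨a, rfl⟩ := hz
        exact hcc a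
      | zero => simp only [h0]; exact tendsto_const_nhds
      | add z w _ _ h1 h2 =>
        simp only [hadd]
        simpa using h1.add h2
      | smul c z _ h1 =>
        rw [tendsto_zero_iff_norm_tendsto_zero] at h1 ⊢
        simp only [hsmul]
        simpa using h1.const_mul ‖c‖
    rw [Metric.tendsto_atTop]
    intro ε hε
    have hC : 0 < |C| + 1 := by positivity
    obtain ⟨z, hz, hxz⟩ := (dense_span_Lp μ).exists_dist_lt x (ε := ε / 2 / (|C| + 1)) (by positivity)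
    obtain ⟨N, hN⟩ := (Metric.tendsto_atTop.mp (hspan z hz)) (ε / 2) (by positivity)
    refine ⟨N, fun t ht => ?_⟩
    have h1 := hN t ht
    rw [dist_zero_right] at h1 ⊢
    have h2 := hG t x z
    rw [dist_eq_norm] at hxz
    have h3 : C * ‖x - z‖ ≤ ε / 2 := by
      calc C * ‖x - z‖ ≤ (|C| + 1) * ‖x - z‖ :=
            mul_le_mul_of_nonneg_right (by linarith [le_abs_self C]) (norm_nonneg _)
        _ ≤ (|C| + 1) * (ε / 2 / (|C| + 1)) := mul_le_mul_of_nonneg_left hxz.le hC.le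
        _ = ε / 2 := by field_simp
    have h4 := norm_add_le (G t x - G t z) (G t z)
    rw [sub_add_cancel] at h4
    linarith
  have hT1 : ∀ t x, ‖T μ t x‖ ≤ ‖x‖ := fun t x =>
    ((T μ t).le_opNorm x).trans (mul_le_of_le_one_left (norm_nonneg x) (norm_T_le μ t))
  intro x y
  refine key (fun t x => inner ℂ (T μ t x) y) ‖y‖ ?_ ?_ ?_ ?_ x
  · intro t x z
    rw [← inner_sub_left, ← map_sub]
    refine (norm_inner_le_norm _ _).trans ?_
    rw [mul_comm]
    exact mul_le_mul_of_nonneg_left (hT1 t _) (norm_nonneg _)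
  · intro t x z
    rw [map_add, inner_add_left]
  · intro t c x
    rw [map_smul, inner_smul_left, norm_mul, RCLike.norm_conj]
  · intro a
    refine key (fun t z => inner ℂ (T μ t (cc μ a)) z) ‖cc μ a‖ ?_ ?_ ?_ ?_ y
    · intro t x z
      rw [← inner_sub_right]
      refine (norm_inner_le_norm _ _).trans ?_
      exact mul_le_mul_of_nonneg_right (hT1 t _) (norm_nonneg _)
    · intro t x z
      rw [inner_add_right]
    · intro t c x
      rw [inner_smul_right, norm_mul]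
    · intro b
      exact tendsto_inner_cc μ hd a b

end Pool.Agent.H785R2.MulSemi
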