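import Mathlib

set_option autoImplicit false
open Filter Topology MeasureTheory
open scoped ZeroAtInfty

namespace Pool.Agent.H785R2.ResolventC0

/-- the space `c_0` -/
abbrev X : Type := C₀(ℕ, ℂ)

lemma norm_le_iff (x : X) {C : ℝ} (hC : 0 ≤ C) : ‖x‖ ≤ C ↔ ∀ k, ‖x k‖ ≤ C := by
  rw [← ZeroAtInftyContinuousMap.norm_toBCF_eq_norm, BoundedContinuousFunction.norm_le hC]
  rfl

lemma norm_apply_le (x : X) (k : ℕ) : ‖x k‖ ≤ ‖x‖ := (norm_le_iff x (norm_nonneg x)).mp le_rfl k

/-- the eigenvalues -/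
noncomputable def lam (k : ℕ) : ℂ := -1 + (k : ℂ) * Complex.I

lemma norm_exp (k : ℕ) (t : ℝ) : ‖Complex.exp (lam k * t)‖ = Real.exp (-t) := by
  rw [Complex.norm_exp]
  congr 1
  simp [lam]

/-- the operators -/
noncomputable def Tfun (t : ℝ) (x : X) : X where
  toFun k := Complex.exp (lam k * t) * x k
  continuous_toFun := continuous_of_discreteTopology
  zero_at_infty' := by
    have h := x.zero_at_infty'
    have h1 : Tendsto (fun k => Real.exp (-t) * ‖x k‖) (cocompact ℕ) (𝓝 0) := by
      simpa using (tendsto_norm_zero.comp h).const_mul (Real.exp (-t))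
    refine squeeze_zero_norm (fun k => ?_) h1
    rw [norm_mul, norm_exp]

@[simp] lemma Tfun_apply (t : ℝ) (x : X) (k : ℕ) : Tfun t x k = Complex.exp (lam k * t) * x k := rfl

noncomputable def T (t : ℝ) : X →L[ℂ] X :=
  LinearMap.mkContinuous
    { toFun := Tfun t
      map_add' := fun x y => by ext k; simp [mul_add]
      map_smul' := fun c x => by ext k; simp [mul_left_comm] } (Real.exp (-t)) (fun x => by
        refine (norm_le_iff _ (by positivity)).mpr fun k => ?_
        change ‖Complex.exp (lam k * t) * x k‖ ≤ _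
        rw [norm_mul, norm_exp]
        exact mul_le_mul_of_nonneg_left (norm_apply_le x k) (Real.exp_pos _).le)

@[simp] lemma T_apply (t : ℝ) (x : X) (k : ℕ) : T t x k = Complex.exp (lam k * t) * x k := rfl

lemma T_norm_le (t : ℝ) (x : X) : ‖T t x‖ ≤ Real.exp (-t) * ‖x‖ := by
  refine (norm_le_iff _ (by positivity)).mpr fun k => ?_
  rw [T_apply, norm_mul, norm_exp]
  exact mul_le_mul_of_nonneg_left (norm_apply_le x k) (Real.exp_pos _).le

lemma T_zero : T 0 = 1 := by
  ext x k
  simp

lemma T_add (s t : ℝ) : T (s + t) = T s * T t := by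
  ext x k
  rw [mul_apply_eq_comp, T_apply, T_apply, T_apply, ← mul_assoc, ← Complex.exp_add]
  congr 2
  push_cast; ring

lemma T_cont (x : X) : ContinuousOn (fun t : ℝ => T t x) (Set.Ici (0 : ℝ)) := by
  intro s hs
  rw [ContinuousWithinAt, Metric.tendsto_nhds]
  intro ε hε
  have h := x.zero_at_infty'
  rw [cocompact_eq_cofinite, Metric.tendsto_nhds] at h
  have h2 := h (ε / 4) (by positivity)
  rw [Filter.eventually_cofinite] at h2
  have h3 : ∀ᶠ t : ℝ in 𝓝[Set.Ici 0] s, ∀ k ∈ {k | ¬ dist (x.toFun k) 0 < ε / 4},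
      ‖T t x k - T s x k‖ < ε / 2 := by
    rw [Filter.eventually_all_finite h2]
    intro k _
    have hc : Continuous fun t : ℝ => ‖T t x k - T s x k‖ := by
      simp only [T_apply]
      fun_prop
    have h4 : Tendsto (fun t : ℝ => ‖T t x k - T s x k‖) (𝓝[Set.Ici 0] s) (𝓝 0) := by
      have h5 := hc.tendsto s
      rw [sub_self, norm_zero] at h5
      exact h5.mono_left nhdsWithin_le_nhds
    exact h4.eventually_lt_const (by positivity)
  filter_upwards [h3, self_mem_nhdsWithin] with t ht ht0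
  rw [dist_eq_norm]
  refine lt_of_le_of_lt ((norm_le_iff _ (by positivity : (0 : ℝ) ≤ ε / 2)).mpr fun k => ?_)
    (by linarith)
  by_cases hk : dist (x.toFun k) 0 < ε / 4
  · have hk' : ‖x k‖ < ε / 4 := by simpa using hk
    have h5 : ‖T t x k‖ ≤ ‖x k‖ := by
      rw [T_apply, norm_mul, norm_exp]
      have : Real.exp (-t) ≤ 1 := Real.exp_le_one_iff.mpr (by simpa using ht0)
      exact mul_le_of_le_one_left (norm_nonneg _) this
    have h6 : ‖T s x k‖ ≤ ‖x k‖ := by
      rw [T_apply, norm_mul, norm_exp]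
      have : Real.exp (-s) ≤ 1 := Real.exp_le_one_iff.mpr (by simpa using hs)
      exact mul_le_of_le_one_left (norm_nonneg _) this
    change ‖T t x k - T s x k‖ ≤ _
    calc ‖T t x k - T s x k‖ ≤ ‖T t x k‖ + ‖T s x k‖ := norm_sub_le _ _
      _ ≤ ε / 2 := by linarith
  · exact (ht k hk).le

/-- evaluation -/
noncomputable def ev (k : ℕ) : X →L[ℂ] ℂ :=
  LinearMap.mkContinuous
    { toFun := fun x => x k
      map_add' := fun _ _ => rfl
      map_smul' := fun _ _ => rfl } 1 (fun x => by
        rw [one_mul]; exact norm_apply_le x k)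

@[simp] lemma ev_apply (k : ℕ) (x : X) : ev k x = x k := rfl

/-- the vector -/
noncomputable def x0 : X where
  toFun k := ((1 / Real.sqrt ((k : ℝ) + 1) : ℝ) : ℂ)
  continuous_toFun := continuous_of_discreteTopology
  zero_at_infty' := by
    rw [cocompact_eq_cofinite, Nat.cofinite_eq_atTop]
    have h1 : Tendsto (fun k : ℕ => Real.sqrt ((k : ℝ) + 1)) atTop atTop :=
      Real.tendsto_sqrt_atTop.comp (tendsto_atTop_add_const_right _ _ tendsto_natCast_atTop_atTop)
    have h2 : Tendsto (fun k : ℕ => (1 / Real.sqrt ((k : ℝ) + 1) : ℝ)) atTop (𝓝 0) := by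
      simp only [one_div]
      exact h1.inv_tendsto_atTop
    exact (Complex.continuous_ofReal.tendsto' 0 0 Complex.ofReal_zero).comp h2

lemma x0_apply (k : ℕ) : x0 k = ((1 / Real.sqrt ((k : ℝ) + 1) : ℝ) : ℂ) := rfl

lemma integrable (a s : ℝ) (ha : 0 < a) (x : X) :
    IntegrableOn (fun t : ℝ => Complex.exp (-(((a : ℂ) + (s : ℂ) * Complex.I) * (t : ℂ))) • T t x)
      (Set.Ioi 0) := by
  have hb : IntegrableOn (fun t : ℝ => Real.exp (-a * t) * ‖x‖) (Set.Ioi 0) :=
    (integrableOn_exp_mul_Ioi (by linarith) 0).mul_const _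
  refine Integrable.mono' hb ?_ ?_
  · refine ContinuousOn.aestronglyMeasurable ?_ measurableSet_Ioi
    have hc : Continuous fun t : ℝ =>
        Complex.exp (-(((a : ℂ) + (s : ℂ) * Complex.I) * (t : ℂ))) := by fun_prop
    exact hc.continuousOn.smul ((T_cont x).mono Set.Ioi_subset_Ici_self)
  · refine (ae_restrict_mem measurableSet_Ioi).mono fun t ht => ?_
    rw [norm_smul, Complex.norm_exp]
    have h1 : (-(((a : ℂ) + (s : ℂ) * Complex.I) * (t : ℂ))).re = -a * t := by simp
    rw [h1]
    refine mul_le_mul_of_nonneg_left ((T_norm_le t x).trans ?_) (Real.exp_pos _).le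
    have : Real.exp (-t) ≤ 1 := Real.exp_le_one_iff.mpr (by simpa using (Set.mem_Ioi.mp ht).le)
    exact mul_le_of_le_one_left (norm_nonneg _) this

lemma integral_apply (a s : ℝ) (ha : 0 < a) (x : X) (k : ℕ) :
    (∫ t in Set.Ioi (0 : ℝ),
      Complex.exp (-(((a : ℂ) + (s : ℂ) * Complex.I) * (t : ℂ))) • T t x) k =
      x k * (1 / ((a + 1 : ℂ) + ((s - k : ℝ) : ℂ) * Complex.I)) := by
  have h := (ev k).integral_comp_comm (integrable a s ha x)
  simp only [ev_apply] at h
  rw [← h]
  have h1 : ∀ t : ℝ, (Complex.exp (-(((a : ℂ) + (s : ℂ) * Complex.I) * (t : ℂ))) • T t x) k =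
      x k * Complex.exp ((-((a + 1 : ℂ) + ((s - k : ℝ) : ℂ) * Complex.I)) * t) := by
    intro t
    rw [ZeroAtInftyContinuousMap.smul_apply, smul_eq_mul, T_apply, ← mul_assoc, ← Complex.exp_add,
      mul_comm]
    congr 2
    simp only [lam]
    push_cast
    ring
  simp_rw [h1]
  rw [integral_const_mul, integral_exp_mul_complex_Ioi]
  · rw [Complex.ofReal_zero, mul_zero, Complex.exp_zero, neg_div_neg_eq]
  · simp; linarith

lemma lower (a s : ℝ) (ha : 0 < a) (k : ℕ) (hs : s ∈ Set.Ico (k : ℝ) (k + 1)) :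
    (1 / Real.sqrt ((k : ℝ) + 1)) * (1 / (a + 2)) ≤ ‖∫ t in Set.Ioi (0 : ℝ),
      Complex.exp (-(((a : ℂ) + (s : ℂ) * Complex.I) * (t : ℂ))) • T t x0‖ := by
  refine le_trans ?_ (norm_apply_le _ k)
  rw [integral_apply a s ha, norm_mul, x0_apply, Complex.norm_real, Real.norm_of_nonneg (by positivity)]
  refine mul_le_mul_of_nonneg_left ?_ (by positivity)
  rw [norm_div, norm_one]
  have hpos : 0 < ‖(a + 1 : ℂ) + ((s - k : ℝ) : ℂ) * Complex.I‖ := by
    rw [norm_pos_iff]
    intro h
    have := congrArg Complex.re h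
    simp at this
    linarith
  refine one_div_le_one_div_of_le hpos ?_
  calc ‖(a + 1 : ℂ) + ((s - k : ℝ) : ℂ) * Complex.I‖ ≤ ‖(a + 1 : ℂ)‖ + ‖((s - k : ℝ) : ℂ) * Complex.I‖ :=
        norm_add_le _ _
    _ ≤ (a + 1) + 1 := by
        gcongr
        · have : (a + 1 : ℂ) = ((a + 1 : ℝ) : ℂ) := by push_cast; ring
          rw [this, Complex.norm_real, Real.norm_of_nonneg (by linarith)]
        · rw [norm_mul, Complex.norm_I, mul_one, Complex.norm_real, Real.norm_of_nonneg (by linarith [hs.1])]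
          linarith [hs.2]
    _ = a + 2 := by ring

lemma lintegral_top (a : ℝ) (ha : 0 < a) :
    ∫⁻ s : ℝ, ((‖∫ t in Set.Ioi (0 : ℝ),
      Complex.exp (-(((a : ℂ) + (s : ℂ) * Complex.I) * (t : ℂ))) • T t x0‖₊ : ENNReal)) ^ 2 = ⊤ := by
  rw [eq_top_iff]
  set g : ℕ → ℝ := fun k => (1 / ((k : ℝ) + 1)) * (1 / (a + 2)) ^ 2 with hg
  have hns : ¬ Summable g := by
    intro h
    have h1 : Summable fun k : ℕ => (1 / ((k : ℝ) + 1)) := by
      have h2 := h.mul_right (((1 / (a + 2)) ^ 2)⁻¹)
      refine h2.congr fun k => ?_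
      simp only [hg]
      field_simp
    have h3 := (summable_nat_add_iff 1 (f := fun k : ℕ => 1 / (k : ℝ))).mp (by simpa using h1)
    exact Real.not_summable_one_div_natCast h3
  have htop : ∑' k, ENNReal.ofReal (g k) = ⊤ := by
    by_contra hne
    apply hns
    have := ENNReal.summable_toReal hne
    refine this.congr fun k => ?_
    rw [ENNReal.toReal_ofReal]
    simp only [hg]; positivity
  rw [← htop]
  calc ∑' k, ENNReal.ofReal (g k)
      ≤ ∑' k : ℕ, ∫⁻ s in Set.Ico (k : ℝ) (k + 1), ((‖∫ t in Set.Ioi (0 : ℝ),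
        Complex.exp (-(((a : ℂ) + (s : ℂ) * Complex.I) * (t : ℂ))) • T t x0‖₊ : ENNReal)) ^ 2 := by
        refine ENNReal.tsum_le_tsum fun k => ?_
        calc ENNReal.ofReal (g k) = ∫⁻ _s in Set.Ico (k : ℝ) (k + 1), ENNReal.ofReal (g k) := by
              rw [setLIntegral_const, Real.volume_Ico]
              simp
          _ ≤ _ := by
              refine setLIntegral_mono' measurableSet_Ico fun s hs => ?_
              have h1 := lower a s ha k hs
              have h2 : g k = ((1 / Real.sqrt ((k : ℝ) + 1)) * (1 / (a + 2))) ^ 2 := by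
                simp only [hg]
                rw [mul_pow, div_pow 1 (Real.sqrt _), Real.sq_sqrt (by positivity), one_pow]
              rw [h2, ENNReal.ofReal_pow (by positivity)]
              gcongr
              refine (ENNReal.ofReal_le_ofReal h1).trans ?_
              rw [ofReal_norm]
              rfl
    _ = ∫⁻ s in ⋃ k : ℕ, Set.Ico (k : ℝ) (k + 1), _ := by
        rw [lintegral_iUnion (fun k => measurableSet_Ico)]
        intro i j hij
        refine Set.disjoint_left.mpr fun s hi hj => hij ?_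
        have h1 := hi.1; have h2 := hi.2; have h3 := hj.1; have h4 := hj.2
        have h5 : (i : ℝ) < (j : ℝ) + 1 := by linarith
        have h6 : (j : ℝ) < (i : ℝ) + 1 := by linarith
        have h7 : i < j + 1 := by exact_mod_cast h5
        have h8 : j < i + 1 := by exact_mod_cast h6
        omega
    _ ≤ _ := setLIntegral_le_lintegral _ _

end Pool.Agent.H785R2.ResolventC0
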