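import Pool.Agent.H785R2.VdC

set_option autoImplicit false
open Filter Topology MeasureTheory

namespace Pool.Agent.H785R2.RieszMeas

open Pool.Agent.H785R2.VdC

/-- the interval `[1,2]` -/
abbrev E : Type := Set.Icc (1 : ℝ) 2

/-- the characters -/
noncomputable def chi (s : ℝ) (m : ℤ) (x : E) : ℂ := Complex.exp (ph s m x * Complex.I)

lemma continuous_chi (s : ℝ) (m : ℤ) : Continuous (chi s m) :=
  (continuous_e s m).comp continuous_subtype_val

lemma norm_chi (s : ℝ) (m : ℤ) (x : E) : ‖chi s m x‖ = 1 := Complex.norm_exp_ofReal_mul_I _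

lemma chi_mul (s s' : ℝ) (m m' : ℤ) (x : E) : chi s m x * chi s' m' x = chi (s + s') (m + m') x := by
  unfold chi
  rw [← Complex.exp_add]
  congr 1
  unfold ph
  push_cast
  ring

lemma chi_zero (x : E) : chi 0 0 x = 1 := by
  simp [chi, ph]

lemma integrable_chi (μ : Measure E) [IsFiniteMeasure μ] (s : ℝ) (m : ℤ) : Integrable (chi s m) μ :=
  (integrable_const (1 : ℝ)).mono' (continuous_chi s m).aestronglyMeasurable
    (Eventually.of_forall fun x => (norm_chi s m x).le)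

/-- Fourier transform on the curve -/
noncomputable def F (μ : Measure E) (s : ℝ) (m : ℤ) : ℂ := ∫ x, chi s m x ∂μ

lemma norm_F_le (μ : Measure E) [IsProbabilityMeasure μ] (s : ℝ) (m : ℤ) : ‖F μ s m‖ ≤ 1 := by
  refine (norm_integral_le_of_norm_le_const (C := 1)
    (Eventually.of_forall fun x => (norm_chi s m x).le)).trans ?_
  simp

lemma F_zero (μ : Measure E) [IsProbabilityMeasure μ] : F μ 0 0 = 1 := by
  unfold F
  simp [chi_zero]

lemma integral_comb (μ : Measure E) [IsFiniteMeasure μ] (s : ℝ) (a b c : ℤ) :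
    ∫ x, (chi s a x + (chi s b x + chi s c x) / 2) ∂μ = F μ s a + (F μ s b + F μ s c) / 2 := by
  have h1 : Integrable (fun x => (chi s b x + chi s c x) / 2) μ :=
    ((integrable_chi μ s b).add (integrable_chi μ s c)).div_const 2
  rw [integral_add (integrable_chi μ s a) h1, integral_div,
    integral_add (integrable_chi μ s b) (integrable_chi μ s c)]
  rfl

/-- decay at infinity -/
def Decay (μ : Measure E) : Prop := ∀ ε : ℝ, 0 < ε → ∃ N : ℕ, ∀ (s : ℝ) (m : ℤ),
    ((N : ℝ) ≤ |s| ∨ (N : ℝ) ≤ |(m : ℝ)|) → ‖F μ s m‖ ≤ ε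

/-- Lebesgue measure on `[1,2]` -/
noncomputable def base : Measure E := Measure.comap Subtype.val volume

lemma base_prob : IsProbabilityMeasure base := by
  constructor
  rw [base, Measure.comap_apply _ Subtype.val_injective
    (fun s hs => measurableSet_Icc.subtype_image hs) _ MeasurableSet.univ]
  rw [Set.image_univ, Subtype.range_val, Real.volume_Icc]
  norm_num

lemma base_decay : Decay base := by
  intro ε hε
  obtain ⟨N, hN⟩ := F0_decay hε
  refine ⟨N, fun s m h => ?_⟩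
  have h1 : F base s m = F0 s m := by
    unfold F chi F0 base
    rw [intervalIntegral.integral_of_le (by norm_num), ← integral_Icc_eq_integral_Ioc]
    exact integral_subtype_comap measurableSet_Icc
      (fun x : ℝ => Complex.exp (ph s m x * Complex.I))
  rw [h1]
  exact hN s m h

/-- cosine factor -/
noncomputable def cs (n : ℤ) (x : E) : ℝ := Real.cos (ph 0 n x)

lemma cs_eq (n : ℤ) (x : E) : ((cs n x : ℝ) : ℂ) = (chi 0 n x + chi 0 (-n) x) / 2 := by
  unfold cs chi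
  rw [Complex.ofReal_cos, Complex.cos]
  congr 3
  unfold ph
  push_cast
  ring

lemma continuous_cs (n : ℤ) : Continuous (cs n) :=
  Real.continuous_cos.comp ((continuous_ph 0 n).comp continuous_subtype_val)

lemma step (μ : ProbabilityMeasure E) (hμ : Decay (μ : Measure E)) (M : ℕ) {ε : ℝ} (hε : 0 < ε)
    (hε1 : ε ≤ 1 / 2) : ∃ (μ' : ProbabilityMeasure E) (n : ℕ), Decay (μ' : Measure E) ∧ M < n ∧
      Even n ∧ (∀ (s : ℝ) (m : ℤ), |m| ≤ M → ‖F μ' s m - F μ s m‖ ≤ ε) ∧ 1 / 4 ≤ ‖F μ' 0 n‖ := by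
  obtain ⟨N, hN⟩ := hμ (ε / 4) (by positivity)
  set n : ℕ := 2 * (N + M + 1) with hn
  have hnN : (N : ℝ) ≤ |((n : ℤ) : ℝ)| := by
    rw [hn]; push_cast
    rw [abs_of_nonneg (by positivity)]
    have : (0 : ℝ) ≤ M := Nat.cast_nonneg M
    have : (0 : ℝ) ≤ N := Nat.cast_nonneg N
    linarith
  set c : ℝ := ∫ x, (1 + cs n x) ∂(μ : Measure E) with hc
  have hcint : Integrable (fun x => 1 + cs n x) (μ : Measure E) :=
    (continuous_const.add (continuous_cs n)).integrable_of_hasCompactSupport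
      (HasCompactSupport.of_compactSpace _)
  have hcC : (c : ℂ) = 1 + (F μ 0 n + F μ 0 (-n)) / 2 := by
    rw [hc, ← integral_complex_ofReal]
    have h1 : ∀ x : E, ((1 + cs n x : ℝ) : ℂ) = 1 + (chi 0 n x + chi 0 (-n) x) / 2 := by
      intro x
      push_cast
      rw [cs_eq]
    have h2 : ∀ x : E, ((1 + cs n x : ℝ) : ℂ) = chi 0 0 x + (chi 0 n x + chi 0 (-n) x) / 2 := by
      intro x
      rw [h1, chi_zero]
    simp_rw [h2]
    rw [integral_comb, F_zero]
  have hc1 : ‖(c : ℂ) - 1‖ ≤ ε / 4 := by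
    rw [hcC, add_sub_cancel_left, norm_div]
    have h1 := hN 0 n (Or.inr hnN)
    have h2 := hN 0 (-n) (Or.inr (by push_cast; rw [abs_neg]; exact_mod_cast hnN))
    have h3 := norm_add_le (F μ 0 n) (F μ 0 (-n))
    have h4 : ‖(2 : ℂ)‖ = 2 := by norm_num
    rw [h4, div_le_iff₀ (by norm_num)]
    linarith
  have hc2 : |c - 1| ≤ ε / 4 := by
    have : ((c : ℂ) - 1) = ((c - 1 : ℝ) : ℂ) := by push_cast; ring
    rw [this, Complex.norm_real] at hc1
    exact hc1
  obtain ⟨hc3, hc4⟩ := abs_le.mp hc2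
  have hc0 : 0 < c := by linarith
  -- the new measure
  set g : E → NNReal := fun x => Real.toNNReal ((1 + cs n x) / c) with hg
  have hgm : Measurable g :=
    (((continuous_const.add (continuous_cs n)).div_const c).measurable).real_toNNReal
  have hcsx : ∀ x, 0 ≤ 1 + cs n x := fun x => by
    have := Real.neg_one_le_cos (ph 0 n x)
    unfold cs; linarith
  have hgc : ∀ x, ((g x : NNReal) : ℝ) = (1 + cs n x) / c := fun x =>
    Real.coe_toNNReal _ (div_nonneg (hcsx x) hc0.le)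
  set ν : Measure E := (μ : Measure E).withDensity (fun x => (g x : ENNReal)) with hν
  have hνp : IsProbabilityMeasure ν := by
    constructor
    rw [hν, withDensity_apply _ MeasurableSet.univ, setLIntegral_univ]
    have h1 : ∀ x, (g x : ENNReal) = ENNReal.ofReal ((1 + cs n x) / c) := fun x => rfl
    simp_rw [h1]
    rw [← ofReal_integral_eq_lintegral_ofReal (hcint.div_const c)
      (Eventually.of_forall fun x => div_nonneg (hcsx x) hc0.le), integral_div, ← hc,
      div_self hc0.ne', ENNReal.ofReal_one]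
  have hF : ∀ (s : ℝ) (m : ℤ), F ν s m = (F μ s m + (F μ s (m + n) + F μ s (m - n)) / 2) / c := by
    intro s m
    rw [F, hν, integral_withDensity_eq_integral_smul hgm]
    have h1 : ∀ x : E, g x • chi s m x =
        (chi s m x + (chi s (m + n) x + chi s (m - n) x) / 2) / c := by
      intro x
      rw [NNReal.smul_def, Complex.real_smul, hgc x]
      push_cast
      rw [cs_eq]
      have h2 := chi_mul 0 s n m x
      have h3 := chi_mul 0 s (-n) m x
      rw [zero_add] at h2 h3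
      have h4 : (m + n : ℤ) = n + m := add_comm _ _
      have h5 : (m - n : ℤ) = -n + m := by ring
      rw [h4, h5, ← h2, ← h3]
      ring
    simp_rw [h1]
    rw [integral_div, integral_comb]
  have hcn : ‖(c : ℂ)‖ = c := by rw [Complex.norm_real, Real.norm_of_nonneg hc0.le]
  have h2n : ‖(2 : ℂ)‖ = 2 := by norm_num
  refine ⟨⟨ν, hνp⟩, n, ?_, by omega, ⟨N + M + 1, by omega⟩, ?_, ?_⟩
  · intro η hη
    obtain ⟨N1, hN1⟩ := hμ (η / 4) (by positivity)
    refine ⟨N1 + n, fun s m h => ?_⟩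
    have hn0 : (0 : ℝ) ≤ n := Nat.cast_nonneg n
    have h1 : ‖F μ s m‖ ≤ η / 4 := hN1 s m (by
      push_cast at h
      rcases h with h | h
      · left; linarith
      · right; linarith)
    have h2 : ‖F μ s (m + n)‖ ≤ η / 4 := hN1 s (m + n) (by
      push_cast at h ⊢
      rcases h with h | h
      · left; linarith
      · right
        have := abs_sub_abs_le_abs_sub (m : ℝ) (-(n : ℝ))
        rw [abs_neg, abs_of_nonneg hn0, sub_neg_eq_add] at this
        linarith)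
    have h3 : ‖F μ s (m - n)‖ ≤ η / 4 := hN1 s (m - n) (by
      push_cast at h ⊢
      rcases h with h | h
      · left; linarith
      · right
        have := abs_sub_abs_le_abs_sub (m : ℝ) (n : ℝ)
        rw [abs_of_nonneg hn0] at this
        linarith)
    change ‖F ν s m‖ ≤ η
    rw [hF, norm_div, hcn, div_le_iff₀ hc0]
    have h5 : ‖(F μ s (m + n) + F μ s (m - n)) / 2‖ ≤ η / 4 := by
      rw [norm_div, h2n, div_le_iff₀ (by norm_num)]
      have := norm_add_le (F μ s (m + n)) (F μ s (m - n))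
      linarith
    have h6 := norm_add_le (F μ s m) ((F μ s (m + n) + F μ s (m - n)) / 2)
    nlinarith
  · intro s m hm
    change ‖F ν s m - F μ s m‖ ≤ ε
    have hm' : |(m : ℝ)| ≤ M := by exact_mod_cast hm
    have hnr : (n : ℝ) = 2 * (N + M + 1) := by rw [hn]; push_cast; ring
    have hN0 : (0 : ℝ) ≤ N := Nat.cast_nonneg N
    have hM0 : (0 : ℝ) ≤ M := Nat.cast_nonneg M
    have h2 : ‖F μ s (m + n)‖ ≤ ε / 4 := hN s (m + n) (by
      right
      push_cast
      have := abs_sub_abs_le_abs_sub (n : ℝ) (-(m : ℝ))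
      rw [abs_neg, abs_of_nonneg (Nat.cast_nonneg n), sub_neg_eq_add, add_comm (n : ℝ)] at this
      linarith)
    have h3 : ‖F μ s (m - n)‖ ≤ ε / 4 := hN s (m - n) (by
      right
      push_cast
      have := abs_sub_abs_le_abs_sub (n : ℝ) (m : ℝ)
      rw [abs_of_nonneg (Nat.cast_nonneg n), abs_sub_comm] at this
      linarith)
    have h1 := norm_F_le (μ : Measure E) s m
    have h4 : F ν s m - F μ s m =
        ((1 - c) * F μ s m + (F μ s (m + n) + F μ s (m - n)) / 2) / c := by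
      rw [hF]
      have : (c : ℂ) ≠ 0 := by exact_mod_cast hc0.ne'
      field_simp
      ring
    rw [h4, norm_div, hcn, div_le_iff₀ hc0]
    have h5 : ‖(F μ s (m + n) + F μ s (m - n)) / 2‖ ≤ ε / 4 := by
      rw [norm_div, h2n, div_le_iff₀ (by norm_num)]
      have := norm_add_le (F μ s (m + n)) (F μ s (m - n))
      linarith
    have h6 : ‖(1 - (c : ℂ)) * F μ s m‖ ≤ ε / 4 := by
      rw [norm_mul, norm_sub_rev]
      calc ‖(c : ℂ) - 1‖ * ‖F μ s m‖ ≤ ε / 4 * 1 := mul_le_mul hc1 h1 (norm_nonneg _) (by positivity)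
        _ = ε / 4 := mul_one _
    have h7 := norm_add_le ((1 - (c : ℂ)) * F μ s m) ((F μ s (m + n) + F μ s (m - n)) / 2)
    nlinarith
  · change 1 / 4 ≤ ‖F ν 0 n‖
    have h1 := hN 0 n (Or.inr hnN)
    have h2 : ‖F μ 0 (n + n)‖ ≤ ε / 4 := hN 0 (n + n) (Or.inr (by
      push_cast at hnN ⊢
      have hn0 : (0 : ℝ) ≤ n := Nat.cast_nonneg n
      rw [abs_of_nonneg hn0] at hnN
      rw [abs_of_nonneg (by positivity)]
      linarith))
    have h3 : F ν 0 n = (1 / 2 + (F μ 0 n + F μ 0 (n + n) / 2)) / c := by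
      rw [hF, sub_self, F_zero]
      ring
    rw [h3, norm_div, hcn, le_div_iff₀ hc0]
    have h4 : ‖(1 / 2 : ℂ)‖ = 1 / 2 := by norm_num
    have h5 := norm_sub_le (1 / 2 + (F μ 0 n + F μ 0 (n + n) / 2)) (F μ 0 n + F μ 0 (n + n) / 2)
    rw [add_sub_cancel_right, h4] at h5
    have h6 := norm_add_le (F μ 0 n) (F μ 0 (n + n) / 2)
    rw [norm_div, h2n] at h6
    nlinarith

/-- states of the recursion -/
abbrev St : Type := {p : ProbabilityMeasure E × ℕ // Decay (p.1 : Measure E)}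

/-- the accuracy -/
noncomputable def ee (k : ℕ) : ℝ := 1 / 16 * (1 / 2) ^ k

lemma ee_pos (k : ℕ) : 0 < ee k := by unfold ee; positivity

lemma ee_le (k : ℕ) : ee k ≤ 1 / 2 := by
  unfold ee
  have : (1 / 2 : ℝ) ^ k ≤ 1 := pow_le_one₀ (by norm_num) (by norm_num)
  linarith

lemma exists_next (k : ℕ) (σ : St) : ∃ τ : St, σ.1.2 < τ.1.2 ∧ Even τ.1.2 ∧
    (∀ (s : ℝ) (m : ℤ), |m| ≤ σ.1.2 → ‖F τ.1.1 s m - F σ.1.1 s m‖ ≤ ee k) ∧
    1 / 4 ≤ ‖F τ.1.1 0 τ.1.2‖ := by
  obtain ⟨μ', n, h1, h2, h3, h4, h5⟩ := step σ.1.1 σ.2 σ.1.2 (ee_pos k) (ee_le k)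
  exact ⟨⟨(μ', n), h1⟩, h2, h3, h4, h5⟩

/-- the sequence -/
noncomputable def sq : ℕ → St
  | 0 => ⟨(⟨base, base_prob⟩, 0), base_decay⟩
  | k + 1 => (exists_next k (sq k)).choose

lemma sq_spec (k : ℕ) : (sq k).1.2 < (sq (k + 1)).1.2 ∧ Even (sq (k + 1)).1.2 ∧
    (∀ (s : ℝ) (m : ℤ), |m| ≤ (sq k).1.2 → ‖F (sq (k + 1)).1.1 s m - F (sq k).1.1 s m‖ ≤ ee k) ∧
    1 / 4 ≤ ‖F (sq (k + 1)).1.1 0 (sq (k + 1)).1.2‖ :=
  (exists_next k (sq k)).choose_spec

lemma sq_mono : StrictMono fun k => (sq k).1.2 := strictMono_nat_of_lt_succ fun k => (sq_spec k).1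

lemma sq_close (k j : ℕ) (s : ℝ) (m : ℤ) (hm : |m| ≤ (sq k).1.2) :
    ‖F (sq (k + j)).1.1 s m - F (sq k).1.1 s m‖ ≤ 2 * ee k - 2 * ee (k + j) := by
  induction j with
  | zero => simp
  | succ j ih =>
    have h1 := (sq_spec (k + j)).2.2.1 s m (hm.trans (by
      exact_mod_cast sq_mono.monotone (Nat.le_add_right k j)))
    have h2 : 2 * ee (k + (j + 1)) = ee (k + j) := by
      unfold ee
      rw [← add_assoc, pow_succ]
      ring
    have h3 : F (sq (k + (j + 1))).1.1 s m - F (sq k).1.1 s m =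
      (F (sq (k + j + 1)).1.1 s m - F (sq (k + j)).1.1 s m) +
        (F (sq (k + j)).1.1 s m - F (sq k).1.1 s m) := by
      rw [← add_assoc]; ring
    rw [h3, h2]
    refine (norm_add_le _ _).trans ?_
    linarith

/-- The limit measure. -/
theorem exists_limit : ∃ μ : ProbabilityMeasure E,
    (∀ ε : ℝ, 0 < ε → ∃ N : ℕ, ∀ s : ℝ, (N : ℝ) ≤ |s| → ‖F μ s 0‖ ≤ ε) ∧
    ∃ n : ℕ → ℕ, StrictMono n ∧ (∀ j, Even (n j)) ∧ ∀ j, 1 / 8 ≤ ‖F μ 0 (n j)‖ := by
  obtain ⟨μ, -, hμ⟩ := (isCompact_univ (X := ProbabilityMeasure E)).ultrafilter_le_nhds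
    ((hyperfilter ℕ).map fun k => (sq k).1.1) (by simp)
  have hμ' : Tendsto (fun k => (sq k).1.1) (hyperfilter ℕ) (𝓝 μ) := hμ
  have hlim : ∀ (s : ℝ) (m : ℤ), Tendsto (fun k => F (sq k).1.1 s m) (hyperfilter ℕ)
      (𝓝 (F μ s m)) := by
    intro s m
    rw [ProbabilityMeasure.tendsto_iff_forall_integral_rclike_tendsto ℂ] at hμ'
    exact hμ' (BoundedContinuousFunction.mkOfCompact ⟨chi s m, continuous_chi s m⟩)
  have hclose : ∀ (k : ℕ) (s : ℝ) (m : ℤ), |m| ≤ (sq k).1.2 →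
      ‖F μ s m - F (sq k).1.1 s m‖ ≤ 2 * ee k := by
    intro k s m hm
    have h1 : Tendsto (fun j => ‖F (sq j).1.1 s m - F (sq k).1.1 s m‖) (hyperfilter ℕ)
        (𝓝 ‖F μ s m - F (sq k).1.1 s m‖) := ((hlim s m).sub_const _).norm
    refine le_of_tendsto h1 ?_
    have h2 : ∀ᶠ j in atTop, ‖F (sq j).1.1 s m - F (sq k).1.1 s m‖ ≤ 2 * ee k := by
      filter_upwards [eventually_ge_atTop k] with j hj
      obtain ⟨i, rfl⟩ := Nat.exists_eq_add_of_le hj
      have := sq_close k i s m hm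
      have := ee_pos (k + i)
      linarith
    exact Nat.hyperfilter_le_atTop h2
  refine ⟨μ, ?_, fun j => (sq (j + 1)).1.2, ?_, fun j => (sq_spec j).2.1, ?_⟩
  · intro ε hε
    obtain ⟨k, hk⟩ : ∃ k, 2 * ee k ≤ ε / 2 := by
      obtain ⟨k, hk⟩ := exists_pow_lt_of_lt_one hε (by norm_num : (1 / 2 : ℝ) < 1)
      refine ⟨k, ?_⟩
      unfold ee
      linarith
    obtain ⟨N, hN⟩ := (sq k).2 (ε / 2) (by positivity)
    refine ⟨N, fun s hs => ?_⟩
    have h1 := hclose k s 0 (by simp)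
    have h2 := hN s 0 (Or.inl hs)
    have h3 := norm_add_le (F μ s 0 - F (sq k).1.1 s 0) (F (sq k).1.1 s 0)
    rw [sub_add_cancel] at h3
    linarith
  · exact fun i j hij => sq_mono (by omega)
  · intro j
    have h1 := hclose (j + 1) 0 ((sq (j + 1)).1.2 : ℤ) (by simp)
    have h2 := (sq_spec j).2.2.2
    have h3 := norm_sub_norm_le (F (sq (j + 1)).1.1 0 (sq (j + 1)).1.2) (F μ 0 (sq (j + 1)).1.2)
    rw [norm_sub_rev] at h3
    have h4 : ee (j + 1) ≤ 1 / 16 := by
      unfold ee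
      have : (1 / 2 : ℝ) ^ (j + 1) ≤ 1 := pow_le_one₀ (by norm_num) (by norm_num)
      linarith
    linarith

end Pool.Agent.H785R2.RieszMeas
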