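import Mathlib

set_option autoImplicit false
open Filter Topology MeasureTheory intervalIntegral

namespace Pool.Agent.H785R2.VdC

/-- the phase -/
noncomputable def ph (s : ℝ) (m : ℤ) (x : ℝ) : ℝ := s * x + m * (2 * Real.arctan x)

/-- its derivative -/
noncomputable def D (s : ℝ) (m : ℤ) (x : ℝ) : ℝ := s + m * (2 / (1 + x ^ 2))

/-- second derivative -/
noncomputable def D2 (m : ℤ) (x : ℝ) : ℝ := m * (-(4 * x) / (1 + x ^ 2) ^ 2)

lemma hasDerivAt_ph (s : ℝ) (m : ℤ) (x : ℝ) : HasDerivAt (ph s m) (D s m x) x := by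
  unfold ph D
  have h1 : HasDerivAt (fun x : ℝ => s * x) s x := by
    simpa using (hasDerivAt_id x).const_mul s
  have h2 := ((Real.hasDerivAt_arctan x).const_mul 2).const_mul (m : ℝ)
  convert! h1.add h2 using 1
  ring

lemma hasDerivAt_D (s : ℝ) (m : ℤ) (x : ℝ) : HasDerivAt (D s m) (D2 m x) x := by
  unfold D D2
  have h0 : (1 + x ^ 2) ≠ 0 := by positivity
  have h1 : HasDerivAt (fun x : ℝ => 1 + x ^ 2) (2 * x) x := by
    simpa using (hasDerivAt_pow 2 x).const_add 1
  have h2 := (((h1.inv h0).const_mul 2).const_mul (m : ℝ)).const_add s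
  convert! h2 using 1
  ring

lemma continuous_D (s : ℝ) (m : ℤ) : Continuous (D s m) :=
  continuous_iff_continuousAt.mpr fun x => (hasDerivAt_D s m x).continuousAt

lemma continuous_ph (s : ℝ) (m : ℤ) : Continuous (ph s m) :=
  continuous_iff_continuousAt.mpr fun x => (hasDerivAt_ph s m x).continuousAt

lemma continuous_D2 (m : ℤ) : Continuous (D2 m) := by
  unfold D2
  refine continuous_const.mul (Continuous.div (by fun_prop) (by fun_prop) fun x => by positivity)

/-- first derivative test -/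
lemma vdc1 (s : ℝ) (m : ℤ) (hm : 0 ≤ m) {a b lam : ℝ} (ha : 0 ≤ a) (hab : a ≤ b) (hlam : 0 < lam)
    (hD : ∀ x ∈ Set.Icc a b, lam ≤ |D s m x|) :
    ‖∫ x in a..b, Complex.exp (ph s m x * Complex.I)‖ ≤ 4 / lam := by
  have hD0 : ∀ x ∈ Set.uIcc a b, D s m x ≠ 0 := by
    intro x hx
    rw [Set.uIcc_of_le hab] at hx
    have := hD x hx
    intro h
    rw [h, abs_zero] at this
    linarith
  have hD0' : ∀ x ∈ Set.uIcc a b, ((D s m x : ℝ) : ℂ) ≠ 0 := fun x hx => by
    exact_mod_cast hD0 x hx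
  -- the primitive
  set G : ℝ → ℂ := fun x => Complex.exp (ph s m x * Complex.I) / (Complex.I * D s m x) with hG
  set R : ℝ → ℂ := fun x => Complex.exp (ph s m x * Complex.I) * D2 m x / (Complex.I * (D s m x) ^ 2)
    with hR
  have hder : ∀ x ∈ Set.uIcc a b, HasDerivAt G (Complex.exp (ph s m x * Complex.I) - R x) x := by
    intro x hx
    have h1 : HasDerivAt (fun x : ℝ => Complex.exp (ph s m x * Complex.I))
        (Complex.exp (ph s m x * Complex.I) * (D s m x * Complex.I)) x := by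
      have h2 := ((hasDerivAt_ph s m x).ofReal_comp).mul_const Complex.I
      exact h2.cexp
    have h3 : HasDerivAt (fun x : ℝ => Complex.I * ((D s m x : ℝ) : ℂ)) (Complex.I * D2 m x) x :=
      (hasDerivAt_D s m x).ofReal_comp.const_mul _
    have h4 := h1.div h3 (mul_ne_zero Complex.I_ne_zero (hD0' x hx))
    convert! h4 using 1
    simp only [hR]
    have := hD0' x hx
    have hI := Complex.I_ne_zero
    field_simp
  have hcR : ContinuousOn R (Set.uIcc a b) := by
    have h1 : Continuous fun x : ℝ => Complex.exp (ph s m x * Complex.I) * D2 m x := by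
      have := continuous_ph s m
      have := continuous_D2 m
      fun_prop
    have h2 : Continuous fun x : ℝ => Complex.I * ((D s m x : ℝ) : ℂ) ^ 2 := by
      have := continuous_D s m
      fun_prop
    exact h1.continuousOn.div h2.continuousOn fun x hx =>
      mul_ne_zero Complex.I_ne_zero (pow_ne_zero 2 (hD0' x hx))
  have hce : Continuous fun x : ℝ => Complex.exp (ph s m x * Complex.I) := by
    have := continuous_ph s m
    fun_prop
  have hint : IntervalIntegrable (fun x => Complex.exp (ph s m x * Complex.I) - R x) volume a b :=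
    (hce.intervalIntegrable a b).sub hcR.intervalIntegrable
  have h1 := integral_eq_sub_of_hasDerivAt hder hint
  rw [integral_sub (hce.intervalIntegrable a b) hcR.intervalIntegrable] at h1
  have h2 : ∫ x in a..b, Complex.exp (ph s m x * Complex.I) = G b - G a + ∫ x in a..b, R x := by
    rw [← h1]; ring
  have hnormG : ∀ x ∈ Set.Icc a b, ‖G x‖ ≤ 1 / lam := by
    intro x hx
    simp only [hG]
    rw [norm_div, norm_mul, Complex.norm_I, one_mul, Complex.norm_real, Complex.norm_exp_ofReal_mul_I]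
    exact one_div_le_one_div_of_le hlam (hD x hx)
  -- the remainder
  have hRn : ∀ x ∈ Set.Ioc a b, ‖R x‖ ≤ -D2 m x / (D s m x) ^ 2 := by
    intro x hx
    simp only [hR]
    rw [norm_div, norm_mul, norm_mul, Complex.norm_I, one_mul, Complex.norm_exp_ofReal_mul_I, one_mul,
      norm_pow, Complex.norm_real, Complex.norm_real, Real.norm_eq_abs, Real.norm_eq_abs, sq_abs]
    have hD2 : D2 m x ≤ 0 := by
      unfold D2
      have : (0 : ℝ) ≤ m := by exact_mod_cast hm
      have hx0 : 0 ≤ x := ha.trans hx.1.le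
      have h5 : -(4 * x) / (1 + x ^ 2) ^ 2 ≤ 0 := by
        apply div_nonpos_of_nonpos_of_nonneg
        · linarith
        · positivity
      nlinarith
    rw [abs_of_nonpos hD2]
  have hder2 : ∀ x ∈ Set.uIcc a b, HasDerivAt (fun x => (D s m x)⁻¹) (-D2 m x / (D s m x) ^ 2) x := by
    intro x hx
    exact (hasDerivAt_D s m x).inv (hD0 x hx)
  have hc2 : ContinuousOn (fun x => -D2 m x / (D s m x) ^ 2) (Set.uIcc a b) :=
    (continuous_D2 m).neg.continuousOn.div ((continuous_D s m).pow 2).continuousOn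
      fun x hx => pow_ne_zero 2 (hD0 x hx)
  have h3 := integral_eq_sub_of_hasDerivAt hder2 hc2.intervalIntegrable
  have h4 : ‖∫ x in a..b, R x‖ ≤ 2 / lam := by
    calc ‖∫ x in a..b, R x‖ ≤ ∫ x in a..b, ‖R x‖ := norm_integral_le_integral_norm hab
      _ ≤ ∫ x in a..b, -D2 m x / (D s m x) ^ 2 := by
          refine integral_mono_on_of_le_Ioo hab hcR.norm.intervalIntegrable hc2.intervalIntegrable ?_
          intro x hx
          exact hRn x ⟨hx.1, hx.2.le⟩
      _ = (D s m b)⁻¹ - (D s m a)⁻¹ := h3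
      _ ≤ |(D s m b)⁻¹| + |(D s m a)⁻¹| := by
          have := le_abs_self (D s m b)⁻¹
          have := neg_abs_le (D s m a)⁻¹
          linarith
      _ ≤ 1 / lam + 1 / lam := by
          rw [abs_inv, abs_inv, ← one_div, ← one_div]
          exact add_le_add (one_div_le_one_div_of_le hlam (hD b ⟨hab, le_rfl⟩))
            (one_div_le_one_div_of_le hlam (hD a ⟨le_rfl, hab⟩))
      _ = 2 / lam := by ring
  rw [h2]
  calc ‖G b - G a + ∫ x in a..b, R x‖ ≤ ‖G b‖ + ‖G a‖ + ‖∫ x in a..b, R x‖ :=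
        (norm_add_le _ _).trans (add_le_add (norm_sub_le _ _) le_rfl)
    _ ≤ 1 / lam + 1 / lam + 2 / lam :=
        add_le_add (add_le_add (hnormG b ⟨hab, le_rfl⟩) (hnormG a ⟨le_rfl, hab⟩)) h4
    _ = 4 / lam := by ring

/-- growth of `D` -/
lemma D_sub (s : ℝ) (m : ℤ) (hm : 0 ≤ m) {x y : ℝ} (hx : 1 ≤ x) (hxy : x ≤ y) (hy : y ≤ 2) :
    4 / 25 * m * (y - x) ≤ D s m x - D s m y := by
  have hm' : (0 : ℝ) ≤ m := by exact_mod_cast hm
  have h1 : D s m x - D s m y = m * (2 * (y ^ 2 - x ^ 2) / ((1 + x ^ 2) * (1 + y ^ 2))) := by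
    unfold D
    have : (1 + x ^ 2) ≠ 0 := by positivity
    have : (1 + y ^ 2) ≠ 0 := by positivity
    field_simp
    ring
  rw [h1]
  have h2 : 4 / 25 * (y - x) ≤ 2 * (y ^ 2 - x ^ 2) / ((1 + x ^ 2) * (1 + y ^ 2)) := by
    rw [le_div_iff₀ (by positivity)]
    have h3 : (1 + x ^ 2) * (1 + y ^ 2) ≤ 25 := by
      have h5 : 1 + x ^ 2 ≤ 5 := by nlinarith
      have h6 : 1 + y ^ 2 ≤ 5 := by nlinarith
      calc (1 + x ^ 2) * (1 + y ^ 2) ≤ 5 * 5 := mul_le_mul h5 h6 (by positivity) (by norm_num)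
        _ = 25 := by norm_num
    have h4 : 0 ≤ y - x := by linarith
    calc 4 / 25 * (y - x) * ((1 + x ^ 2) * (1 + y ^ 2)) ≤ 4 / 25 * (y - x) * 25 := by gcongr
      _ = 4 * (y - x) := by ring
      _ ≤ 2 * (y ^ 2 - x ^ 2) := by nlinarith
  calc 4 / 25 * (m : ℝ) * (y - x) = m * (4 / 25 * (y - x)) := by ring
    _ ≤ _ := mul_le_mul_of_nonneg_left h2 hm'

/-- the turning point -/
lemma exists_turn (s : ℝ) (m : ℤ) (hm : 0 ≤ m) : ∃ x0 ∈ Set.Icc (1 : ℝ) 2,
    (∀ x ∈ Set.Ico 1 x0, 4 / 25 * m * (x0 - x) ≤ D s m x) ∧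
    (∀ x ∈ Set.Ioc x0 2, D s m x ≤ -(4 / 25 * m * (x - x0))) := by
  rcases le_or_gt (D s m 1) 0 with h1 | h1
  · refine ⟨1, ⟨le_rfl, by norm_num⟩, ?_, ?_⟩
    · intro x hx
      exact absurd hx.2 (not_lt.mpr hx.1)
    · intro x hx
      have := D_sub s m hm le_rfl hx.1.le hx.2
      linarith
  · rcases le_or_gt 0 (D s m 2) with h2 | h2
    · refine ⟨2, ⟨by norm_num, le_rfl⟩, ?_, ?_⟩
      · intro x hx
        have := D_sub s m hm hx.1 hx.2.le le_rfl
        linarith
      · intro x hx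
        exact absurd hx.1 (not_lt.mpr hx.2)
    · have h3 := intermediate_value_Icc' (by norm_num : (1 : ℝ) ≤ 2) (continuous_D s m).continuousOn
      obtain ⟨x0, hx0, h4⟩ := h3 ⟨h2.le, h1.le⟩
      refine ⟨x0, hx0, ?_, ?_⟩
      · intro x hx
        have := D_sub s m hm hx.1 hx.2.le hx0.2
        linarith
      · intro x hx
        have := D_sub s m hm hx0.1 hx.1.le hx.2
        linarith

/-- the basic integral -/
noncomputable def F0 (s : ℝ) (m : ℤ) : ℂ := ∫ x in (1 : ℝ)..2, Complex.exp (ph s m x * Complex.I)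

lemma continuous_e (s : ℝ) (m : ℤ) : Continuous fun x : ℝ => Complex.exp (ph s m x * Complex.I) := by
  have := continuous_ph s m
  fun_prop

lemma F0_le_of_pos (s : ℝ) (m : ℤ) (hm : 0 < m) : ‖F0 s m‖ ≤ 52 / Real.sqrt m := by
  have hm' : (1 : ℝ) ≤ m := by exact_mod_cast hm
  obtain ⟨x0, hx0, hL, hR⟩ := exists_turn s m hm.le
  set δ : ℝ := 1 / Real.sqrt m with hδ
  have hsq : 0 < Real.sqrt m := Real.sqrt_pos.mpr (by linarith)
  have hδ0 : 0 < δ := by positivity
  have hmδ : (m : ℝ) * δ = Real.sqrt m := by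
    rw [hδ, mul_one_div, div_eq_iff hsq.ne', Real.mul_self_sqrt (by linarith)]
  set lam : ℝ := 4 / 25 * Real.sqrt m with hlam
  have hlam0 : 0 < lam := by positivity
  have hc := continuous_e s m
  set p : ℝ := max 1 (x0 - δ) with hp
  set q : ℝ := min 2 (x0 + δ) with hq
  have hpx : p ≤ x0 := max_le hx0.1 (by linarith)
  have hxq : x0 ≤ q := le_min hx0.2 (by linarith)
  have h1p : 1 ≤ p := le_max_left _ _
  have hq2 : q ≤ 2 := min_le_left _ _
  have hsplit : F0 s m = (∫ x in (1 : ℝ)..p, Complex.exp (ph s m x * Complex.I)) +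
      (∫ x in p..q, Complex.exp (ph s m x * Complex.I)) +
      ∫ x in q..(2 : ℝ), Complex.exp (ph s m x * Complex.I) := by
    rw [F0, integral_add_adjacent_intervals (hc.intervalIntegrable _ _) (hc.intervalIntegrable _ _),
      integral_add_adjacent_intervals (hc.intervalIntegrable _ _) (hc.intervalIntegrable _ _)]
  have hA : ‖∫ x in (1 : ℝ)..p, Complex.exp (ph s m x * Complex.I)‖ ≤ 4 / lam := by
    rcases eq_or_lt_of_le h1p with h | h
    · rw [← h, integral_same, norm_zero]; positivity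
    · have hp' : p = x0 - δ := by
        rcases le_total (x0 - δ) 1 with h5 | h5
        · rw [hp, max_eq_left h5] at h; exact absurd h (lt_irrefl _)
        · rw [hp, max_eq_right h5]
      refine vdc1 s m hm.le zero_le_one h1p hlam0 fun x hx => ?_
      have h6 : x < x0 := by linarith [hx.2]
      have h7 := hL x ⟨hx.1, h6⟩
      refine le_trans ?_ (le_abs_self _)
      refine le_trans ?_ h7
      rw [hlam, ← hmδ]
      have h8 : δ ≤ x0 - x := by linarith [hx.2]
      calc 4 / 25 * ((m : ℝ) * δ) = 4 / 25 * m * δ := by ring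
        _ ≤ 4 / 25 * m * (x0 - x) := by gcongr
  have hB : ‖∫ x in q..(2 : ℝ), Complex.exp (ph s m x * Complex.I)‖ ≤ 4 / lam := by
    rcases eq_or_lt_of_le hq2 with h | h
    · rw [h, integral_same, norm_zero]; positivity
    · have hq' : q = x0 + δ := by
        rcases le_total 2 (x0 + δ) with h5 | h5
        · rw [hq, min_eq_left h5] at h; exact absurd h (lt_irrefl _)
        · rw [hq, min_eq_right h5]
      refine vdc1 s m hm.le (by linarith [hx0.1]) hq2 hlam0 fun x hx => ?_
      have h6 : x0 < x := by linarith [hx.1]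
      have h7 := hR x ⟨h6, hx.2⟩
      rw [abs_of_nonpos (h7.trans (by
        have : 0 ≤ 4 / 25 * (m : ℝ) * (x - x0) := by
          have : 0 ≤ x - x0 := by linarith
          positivity
        linarith))]
      have h8 : δ ≤ x - x0 := by linarith [hx.1]
      have h9 : lam ≤ 4 / 25 * m * (x - x0) := by
        rw [hlam, ← hmδ]
        calc 4 / 25 * ((m : ℝ) * δ) = 4 / 25 * m * δ := by ring
          _ ≤ 4 / 25 * m * (x - x0) := by gcongr
      linarith
  have hC : ‖∫ x in p..q, Complex.exp (ph s m x * Complex.I)‖ ≤ 2 * δ := by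
    have h5 := norm_integral_le_of_norm_le_const (a := p) (b := q) (C := 1)
      (f := fun x => Complex.exp (ph s m x * Complex.I)) (fun x _ => by
        rw [Complex.norm_exp_ofReal_mul_I])
    refine h5.trans ?_
    rw [one_mul, abs_of_nonneg (by linarith)]
    have h6 : q ≤ x0 + δ := min_le_right _ _
    have h7 : x0 - δ ≤ p := le_max_right _ _
    linarith
  rw [hsplit]
  calc _ ≤ 4 / lam + 2 * δ + 4 / lam :=
        (norm_add_le _ _).trans (add_le_add ((norm_add_le _ _).trans (add_le_add hA hC)) hB)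
    _ = 52 / Real.sqrt m := by
        rw [hlam, hδ]
        field_simp
        norm_num

lemma F0_neg (s : ℝ) (m : ℤ) : ‖F0 (-s) (-m)‖ = ‖F0 s m‖ := by
  have h : F0 (-s) (-m) = (starRingEnd ℂ) (F0 s m) := by
    unfold F0
    rw [← intervalIntegral_conj]
    refine integral_congr fun x _ => ?_
    rw [← Complex.exp_conj, map_mul, Complex.conj_ofReal, Complex.conj_I]
    congr 1
    unfold ph
    push_cast
    ring
  rw [h, RCLike.norm_conj]

lemma F0_le (s : ℝ) (m : ℤ) (hm : m ≠ 0) : ‖F0 s m‖ ≤ 52 / Real.sqrt |(m : ℝ)| := by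
  rcases lt_or_gt_of_ne hm with h | h
  · rw [← F0_neg]
    refine (F0_le_of_pos (-s) (-m) (by omega)).trans ?_
    rw [abs_of_neg (by exact_mod_cast h)]
    push_cast
    exact le_rfl
  · refine (F0_le_of_pos s m h).trans ?_
    rw [abs_of_pos (by exact_mod_cast h)]

lemma F0_le' (s : ℝ) (m : ℤ) (hm : 0 ≤ m) {lam : ℝ} (hlam : 0 < lam) (hs : m + lam ≤ |s|) :
    ‖F0 s m‖ ≤ 4 / lam := by
  have hm' : (0 : ℝ) ≤ m := by exact_mod_cast hm
  refine vdc1 s m hm zero_le_one (by norm_num) hlam fun x hx => ?_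
  unfold D
  have h1 : 2 / (1 + x ^ 2) ≤ 1 := by
    rw [div_le_one (by positivity)]
    nlinarith [hx.1]
  have h2 : 0 ≤ 2 / (1 + x ^ 2) := by positivity
  have h3 : |(m : ℝ) * (2 / (1 + x ^ 2))| ≤ (m : ℝ) := by
    rw [abs_of_nonneg (by positivity)]
    exact mul_le_of_le_one_right hm' h1
  have h4 := abs_add_le (s + m * (2 / (1 + x ^ 2))) (-(m * (2 / (1 + x ^ 2))))
  rw [abs_neg, add_neg_cancel_right] at h4
  linarith

/-- joint decay -/
lemma F0_decay {ε : ℝ} (hε : 0 < ε) : ∃ N : ℕ, ∀ (s : ℝ) (m : ℤ),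
    ((N : ℝ) ≤ |s| ∨ (N : ℝ) ≤ |(m : ℝ)|) → ‖F0 s m‖ ≤ ε := by
  obtain ⟨N1, hN1⟩ := exists_nat_gt ((52 / ε) ^ 2)
  obtain ⟨N2, hN2⟩ := exists_nat_ge (N1 + 4 / ε)
  refine ⟨N2, fun s m h => ?_⟩
  have hN1pos : (0 : ℝ) < N1 := lt_of_le_of_lt (sq_nonneg _) hN1
  by_cases hm : (N1 : ℝ) ≤ |(m : ℝ)|
  · have hm0 : m ≠ 0 := by
      rintro rfl
      simp at hm
      have : (N1 : ℝ) = 0 := by exact_mod_cast hm
      linarith
    refine (F0_le s m hm0).trans ?_
    have h1 : 52 / ε ≤ Real.sqrt |(m : ℝ)| := by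
      apply Real.le_sqrt_of_sq_le
      linarith
    have h2 : 0 < 52 / ε := by positivity
    rw [div_le_iff₀ (by linarith)]
    rw [div_le_iff₀ hε] at h1
    linarith
  · push Not at hm
    have h4 : 0 < 4 / ε := by positivity
    have hs : (N2 : ℝ) ≤ |s| := by
      rcases h with h | h
      · exact h
      · linarith
    have hs' : |(m : ℝ)| + 4 / ε ≤ |s| := by linarith
    have h5 : 4 / (4 / ε) = ε := by field_simp
    rcases le_or_gt 0 m with h0 | h0
    · rw [← h5]
      refine F0_le' s m h0 h4 ?_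
      rwa [abs_of_nonneg (by exact_mod_cast h0)] at hs'
    · rw [← F0_neg, ← h5]
      refine F0_le' (-s) (-m) (by omega) h4 ?_
      rw [abs_of_neg (by exact_mod_cast h0)] at hs'
      rw [abs_neg]
      push_cast
      exact hs'

end Pool.Agent.H785R2.VdC
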